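import Mathlib

/-!
# Hyperbolic affine spheres asymptotic to regular convex cones: definitions
-/

set_option autoImplicit false

open Set Filter Topology Metric
open scoped ContDiff RealInnerProductSpace

namespace Pool.Agent.Hhelper67.Aff

/-- The plane `ℝ²`. -/
abbrev E2 := EuclideanSpace ℝ (Fin 2)

/-- The space `ℝ³`. -/
abbrev E3 := EuclideanSpace ℝ (Fin 3)

/-- A regular convex cone of `ℝ³`: a closed convex cone with nonempty interior that contains no
line. -/
structure IsRegularCone (K : Set E3) : Prop where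
  isClosed : IsClosed K
  convex : Convex ℝ K
  smul_mem : ∀ t : ℝ, 0 ≤ t → ∀ x ∈ K, t • x ∈ K
  interior_nonempty : (interior K).Nonempty
  pointed : ∀ x ∈ K, -x ∈ K → x = 0

/-- `F` is a face of `K`: a convex subset such that `x, y ∈ K` and `(x + y) / 2 ∈ F` imply
`x, y ∈ F`. -/
structure IsFace (K F : Set E3) : Prop where
  subset : F ⊆ K
  convex : Convex ℝ F
  extreme : ∀ x ∈ K, ∀ y ∈ K, (1 / 2 : ℝ) • (x + y) ∈ F → x ∈ F ∧ y ∈ F

/-- `F` is a 2-dimensional face of `K`: a face whose linear span is 2-dimensional. -/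
def IsTwoFace (K F : Set E3) : Prop :=
  IsFace K F ∧ Module.finrank ℝ (Submodule.span ℝ F) = 2

/-- Every point of `∂K` is a limit of points lying in 2-dimensional faces of `K`. -/
def FacesDense (K : Set E3) : Prop :=
  ∀ p ∈ frontier K, p ∈ closure {q : E3 | ∃ F : Set E3, IsTwoFace K F ∧ q ∈ F}

/-- The standard basis of `ℝ²`. -/
noncomputable def e (i : Fin 2) : E2 := EuclideanSpace.single i 1

/-- The determinant of three vectors of `ℝ³`. -/
noncomputable def det3 (a b c : E3) : ℝ :=
  Matrix.det !![a 0, b 0, c 0; a 1, b 1, c 1; a 2, b 2, c 2]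

/-- A field of bilinear forms on `ℝ²`. -/
def FormField : Type := E2 → LinearMap.BilinForm ℝ E2

/-- The value of the field `h` at the point `x` on the vectors `v` and `w`. -/
noncomputable def FormField.eval (h : FormField) (x v w : E2) : ℝ := h x v w

/-- The derivative of `f : ℝ² → ℝ³` at `x` in the direction `v`. -/
noncomputable def dv (f : E2 → E3) (x v : E2) : E3 := fderiv ℝ f x v

/-- The map `f : ℝ² → ℝ³` is a smooth, locally strongly convex immersion with Blaschke metric `h`
and affine normal field `ξ`. This means: `D_X f_* Y = f_*(∇_X Y) + h(X, Y) ξ` with `h` symmetric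
and positive definite, `D_X ξ` is tangent to `f`, and `|det(f_* X, f_* Y, ξ)|` is the area of
`X, Y` for `h`. -/
structure IsBlaschke (f ξ : E2 → E3) (h : FormField) : Prop where
  smooth : ContDiff ℝ ∞ f
  immersion : ∀ x, Function.Injective (dv f x)
  symm : ∀ x v w, h.eval x v w = h.eval x w v
  pos : ∀ x v, v ≠ 0 → 0 < h.eval x v v
  gauss : ∀ x v w, ∃ u : E2, dv (fun y => dv f y w) x v = dv f x u + h.eval x v w • ξ x
  tangential : ∀ x v, ∃ u : E2, dv ξ x v = dv f x u
  volume : ∀ x, det3 (dv f x (e 0)) (dv f x (e 1)) (ξ x) ^ 2 =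
    h.eval x (e 0) (e 0) * h.eval x (e 1) (e 1) - h.eval x (e 0) (e 1) * h.eval x (e 1) (e 0)

/-- `f` is a hyperbolic affine sphere with center `0`, affine mean curvature `H < 0` and Blaschke
metric `h`: the affine normal is `-H f`. -/
def IsHyperbolicAffineSphere (H : ℝ) (f : E2 → E3) (h : FormField) : Prop :=
  H < 0 ∧ IsBlaschke f (fun x => (-H) • f x) h

/-- The `h`-length of a path `γ : [0, 1] → ℝ²`. -/
noncomputable def pathLength (h : FormField) (γ : ℝ → E2) : ℝ :=
  ∫ t in (0 : ℝ)..1, Real.sqrt (h.eval (γ t) (deriv γ t) (deriv γ t))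

/-- The Riemannian distance of `h`: the infimum of the lengths of the `C¹` paths from `x`
to `y`. -/
noncomputable def riemDist (h : FormField) (x y : E2) : ℝ :=
  sInf {L : ℝ | ∃ γ : ℝ → E2, ContDiff ℝ 1 γ ∧ γ 0 = x ∧ γ 1 = y ∧ pathLength h γ = L}

/-- The metric `h` on `ℝ²` is complete: its Cauchy sequences converge. -/
def IsCompleteMetric (h : FormField) : Prop :=
  ∀ u : ℕ → E2, (∀ ε > 0, ∃ N, ∀ m ≥ N, ∀ n ≥ N, riemDist h (u m) (u n) < ε) →
    ∃ x, Tendsto u atTop (𝓝 x)

/-- The derivative of `Φ : ℝ² → ℂ` at `x` in the direction `v`. -/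
noncomputable def dC (Φ : E2 → ℂ) (x v : E2) : ℂ := fderiv ℝ Φ x v

/-- `(ℝ², h)` is conformally equivalent to `ℂ`: there is a diffeomorphism `Φ : ℝ² → ℂ` such that
`h` is a positive function times the pull-back of the flat metric. -/
def ConformalToC (h : FormField) : Prop :=
  ∃ (Φ : E2 → ℂ) (Ψ : ℂ → E2) (c : E2 → ℝ), ContDiff ℝ ∞ Φ ∧ ContDiff ℝ ∞ Ψ ∧
    (∀ x, Ψ (Φ x) = x) ∧ (∀ z, Φ (Ψ z) = z) ∧
    ∀ x, 0 < c x ∧ ∀ v w, h.eval x v w = c x * ⟪dC Φ x v, dC Φ x w⟫

/-- `f` is asymptotic to `∂K`: it is a closed embedding into the interior of `K`, its image meets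
every open half-line from `0` in the interior of `K` exactly once, and the distance of `f x` to
`∂K` tends to `0` as `x` tends to infinity. -/
structure IsAsymptoticTo (f : E2 → E3) (K : Set E3) : Prop where
  isClosedEmbedding : IsClosedEmbedding f
  mem_interior : ∀ x, f x ∈ interior K
  radial : ∀ p ∈ interior K, ∃! x, ∃ t : ℝ, 0 < t ∧ f x = t • p
  tendsto : Tendsto (fun x => infDist (f x) (frontier K)) (cocompact E2) (𝓝 0)

/-- Each complete hyperbolic affine sphere asymptotic to `∂K` is conformally equivalent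
to `ℂ`. -/
def SpheresConformalToC (K : Set E3) : Prop :=
  ∀ (H : ℝ) (f : E2 → E3) (h : FormField), IsHyperbolicAffineSphere H f h →
    IsCompleteMetric h → IsAsymptoticTo f K → ConformalToC h

end Pool.Agent.Hhelper67.Aff
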