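import Mathlib
import Pool.Agent.Hhelper67.Aff.Statement

/-!
# Working forms of the definitions
-/

set_option autoImplicit false

open Set Filter Topology Metric
open scoped ContDiff RealInnerProductSpace

namespace Pool.Agent.Hhelper67.Aff

/-- Working form of `IsBlaschke`. -/
structure IsBlaschkeW (f ξ : E2 → E3) (h : E2 → LinearMap.BilinForm ℝ E2) : Prop where
  smooth : ContDiff ℝ ∞ f
  immersion : ∀ x, Function.Injective (fderiv ℝ f x)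
  symm : ∀ x v w, h x v w = h x w v
  pos : ∀ x v, v ≠ 0 → 0 < h x v v
  gauss : ∀ x v w, ∃ u : E2,
    fderiv ℝ (fun y => fderiv ℝ f y w) x v = fderiv ℝ f x u + h x v w • ξ x
  tangential : ∀ x v, ∃ u : E2, fderiv ℝ ξ x v = fderiv ℝ f x u
  volume : ∀ x, det3 (fderiv ℝ f x (e 0)) (fderiv ℝ f x (e 1)) (ξ x) ^ 2 =
    h x (e 0) (e 0) * h x (e 1) (e 1) - h x (e 0) (e 1) * h x (e 1) (e 0)

/-- Working form of `IsHyperbolicAffineSphere`. -/
def IsSphereW (H : ℝ) (f : E2 → E3) (h : E2 → LinearMap.BilinForm ℝ E2) : Prop :=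
  H < 0 ∧ IsBlaschkeW f (fun x => (-H) • f x) h

theorem sphereW_iff {H : ℝ} {f : E2 → E3} {h : E2 → LinearMap.BilinForm ℝ E2} :
    IsSphereW H f h ↔ IsHyperbolicAffineSphere H f h :=
  ⟨fun ⟨a, b⟩ => ⟨a, ⟨b.1, b.2, b.3, b.4, b.5, b.6, b.7⟩⟩,
    fun ⟨a, b⟩ => ⟨a, ⟨b.1, b.2, b.3, b.4, b.5, b.6, b.7⟩⟩⟩

/-- The dual cone. -/
def dualCone (K : Set E3) : Set E3 := {y | ∀ x ∈ K, 0 ≤ ⟪y, x⟫}

end Pool.Agent.Hhelper67.Aff
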