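import Mathlib
import Pool.Agent.Hhelper67.Aff.Defs

/-!
# The conormal map of an affine sphere and the dual affine sphere
-/

set_option autoImplicit false

open Set Filter Topology Metric
open scoped ContDiff RealInnerProductSpace

namespace Pool.Agent.Hhelper67.Aff

theorem inner3 (a b : E3) : ⟪a, b⟫ = a 0 * b 0 + a 1 * b 1 + a 2 * b 2 := by
  simp only [PiLp.inner_apply, Fin.sum_univ_three, RCLike.inner_apply, conj_trivial]
  ring

theorem det3_eq (a b c : E3) : det3 a b c = a 0 * b 1 * c 2 - a 0 * c 1 * b 2 - b 0 * a 1 * c 2 +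
    b 0 * c 1 * a 2 + c 0 * a 1 * b 2 - c 0 * b 1 * a 2 := by
  simp [det3, Matrix.det_fin_three]

/-- Cross product. -/
noncomputable def crs (a b : E3) : E3 :=
  !₂[a 1 * b 2 - a 2 * b 1, a 2 * b 0 - a 0 * b 2, a 0 * b 1 - a 1 * b 0]

theorem inner_crs (a b c : E3) : ⟪crs a b, c⟫ = det3 a b c := by
  rw [inner3, det3_eq]
  simp [crs]
  ring

theorem inner_crs_left (a b : E3) : ⟪crs a b, a⟫ = 0 := by
  rw [inner3]
  simp [crs]
  ring

theorem inner_crs_right (a b : E3) : ⟪crs a b, b⟫ = 0 := by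
  rw [inner3]
  simp [crs]
  ring

/-- Product of two `3 × 3` determinants as the determinant of inner products. -/
theorem det3_mul_det3 (a b c p q r : E3) : det3 a b c * det3 p q r =
    ⟪a, p⟫ * ⟪b, q⟫ * ⟪c, r⟫ - ⟪a, p⟫ * ⟪b, r⟫ * ⟪c, q⟫ - ⟪a, q⟫ * ⟪b, p⟫ * ⟪c, r⟫ +
    ⟪a, q⟫ * ⟪b, r⟫ * ⟪c, p⟫ + ⟪a, r⟫ * ⟪b, p⟫ * ⟪c, q⟫ - ⟪a, r⟫ * ⟪b, q⟫ * ⟪c, p⟫ := by
  simp only [det3_eq, inner3]
  ring

theorem det3_smul_right (a b c : E3) (t : ℝ) : det3 a b (t • c) = t * det3 a b c := by
  simp only [det3_eq, PiLp.smul_apply, smul_eq_mul]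
  ring

theorem det3_smul_all (a b c : E3) (t : ℝ) : det3 (t • a) (t • b) (t • c) = t ^ 3 * det3 a b c := by
  simp only [det3_eq, PiLp.smul_apply, smul_eq_mul]
  ring

theorem e_span (v : E2) : v = v 0 • e 0 + v 1 • e 1 := by
  ext i
  fin_cases i <;> simp [e]

/-- Data of a (scaled) affine sphere: structure equation `f_{ij} = Γ f_k + k_{ij} f`. -/
structure Sph (f : E2 → E3) (k : E2 → LinearMap.BilinForm ℝ E2) : Prop where
  smooth : ContDiff ℝ ∞ f
  symm : ∀ x v w, k x v w = k x w v
  pos : ∀ x v, v ≠ 0 → 0 < k x v v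
  gauss : ∀ x v w, ∃ u : E2,
    fderiv ℝ (fun y => fderiv ℝ f y w) x v = fderiv ℝ f x u + k x v w • f x
  det_ne : ∀ x, det3 (fderiv ℝ f x (e 0)) (fderiv ℝ f x (e 1)) (f x) ≠ 0

section
variable {f : E2 → E3} {k : E2 → LinearMap.BilinForm ℝ E2} (hs : Sph f k)

/-- The conormal map. -/
noncomputable def conormal (f : E2 → E3) (x : E2) : E3 :=
  (det3 (fderiv ℝ f x (e 0)) (fderiv ℝ f x (e 1)) (f x))⁻¹ •
    crs (fderiv ℝ f x (e 0)) (fderiv ℝ f x (e 1))

include hs

theorem Sph.inner_self (x : E2) : ⟪conormal f x, f x⟫ = 1 := by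
  rw [conormal, real_inner_smul_left, inner_crs, inv_mul_cancel₀ (hs.det_ne x)]

theorem Sph.inner_tan (x v : E2) : ⟪conormal f x, fderiv ℝ f x v⟫ = 0 := by
  rw [e_span v, map_add, map_smul, map_smul, inner_add_right, inner_smul_right, inner_smul_right,
    conormal, real_inner_smul_left, real_inner_smul_left, inner_crs_left, inner_crs_right]
  simp

theorem Sph.contDiff_fderiv_apply (w : E2) : ContDiff ℝ ∞ (fun y => fderiv ℝ f y w) := by
  have h1 : ContDiff ℝ ∞ (fderiv ℝ f) := hs.smooth.fderiv_right (by simp)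
  exact h1.clm_apply contDiff_const

omit hs in
theorem contDiff_coord {g : E2 → E3} (hg : ContDiff ℝ ∞ g) (i : Fin 3) :
    ContDiff ℝ ∞ (fun y => g y i) := by
  exact (contDiff_euclidean.1 hg) i

theorem Sph.contDiff_det : ContDiff ℝ ∞
    (fun x => det3 (fderiv ℝ f x (e 0)) (fderiv ℝ f x (e 1)) (f x)) := by
  have h0 := fun i => contDiff_coord (hs.contDiff_fderiv_apply (e 0)) i
  have h1 := fun i => contDiff_coord (hs.contDiff_fderiv_apply (e 1)) i
  have h2 := fun i => contDiff_coord hs.smooth i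
  simp only [det3_eq]
  exact ((((((h0 0).mul (h1 1)).mul (h2 2)).sub (((h0 0).mul (h2 1)).mul (h1 2))).sub
    (((h1 0).mul (h0 1)).mul (h2 2))).add (((h1 0).mul (h2 1)).mul (h0 2))).add
    (((h2 0).mul (h0 1)).mul (h1 2)) |>.sub (((h2 0).mul (h1 1)).mul (h0 2))

theorem Sph.contDiff_conormal : ContDiff ℝ ∞ (conormal f) := by
  have h0 := fun i => contDiff_coord (hs.contDiff_fderiv_apply (e 0)) i
  have h1 := fun i => contDiff_coord (hs.contDiff_fderiv_apply (e 1)) i
  have hd := (hs.contDiff_det).inv hs.det_ne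
  have hc : ContDiff ℝ ∞ (fun x => crs (fderiv ℝ f x (e 0)) (fderiv ℝ f x (e 1))) := by
    rw [contDiff_euclidean]
    intro i
    fin_cases i
    · simpa [crs] using ((h0 1).mul (h1 2)).sub ((h0 2).mul (h1 1))
    · simpa [crs] using ((h0 2).mul (h1 0)).sub ((h0 0).mul (h1 2))
    · simpa [crs] using ((h0 0).mul (h1 1)).sub ((h0 1).mul (h1 0))
  exact hd.smul hc

theorem Sph.differentiable : Differentiable ℝ f := hs.smooth.differentiable (by simp)

theorem Sph.differentiable_conormal : Differentiable ℝ (conormal f) :=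
  hs.contDiff_conormal.differentiable (by simp)

theorem Sph.inner_dual_self (x v : E2) : ⟪fderiv ℝ (conormal f) x v, f x⟫ = 0 := by
  have h1 : HasFDerivAt (fun y => ⟪conormal f y, f y⟫) _ x :=
    (hs.differentiable_conormal x).hasFDerivAt.inner ℝ (hs.differentiable x).hasFDerivAt
  have h2 : (fun y => ⟪conormal f y, f y⟫) = fun _ => (1 : ℝ) := by
    ext y
    exact hs.inner_self y
  rw [h2] at h1
  have h3 := h1.unique (hasFDerivAt_const (1 : ℝ) x)
  have h4 := congrArg (fun L => L v) h3
  simp [fderivInnerCLM_apply, hs.inner_tan] at h4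
  exact h4

theorem Sph.inner_dual_tan (x v w : E2) :
    ⟪fderiv ℝ (conormal f) x v, fderiv ℝ f x w⟫ = -(k x v w) := by
  have h1 : HasFDerivAt (fun y => ⟪conormal f y, fderiv ℝ f y w⟫) _ x :=
    (hs.differentiable_conormal x).hasFDerivAt.inner ℝ
      (((hs.contDiff_fderiv_apply w).differentiable (by simp)) x).hasFDerivAt
  have h2 : (fun y => ⟪conormal f y, fderiv ℝ f y w⟫) = fun _ => (0 : ℝ) := by
    ext y
    exact hs.inner_tan y w
  rw [h2] at h1
  have h3 := h1.unique (hasFDerivAt_const (0 : ℝ) x)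
  have h4 := congrArg (fun L => L v) h3
  obtain ⟨u, hu⟩ := hs.gauss x v w
  simp only [ContinuousLinearMap.comp_apply, fderivInnerCLM_apply,
    ContinuousLinearMap.prod_apply, zero_apply, hu, inner_add_right,
    hs.inner_tan, inner_smul_right, hs.inner_self] at h4
  linarith

theorem Sph.contDiff_dual_apply (w : E2) :
    ContDiff ℝ ∞ (fun y => fderiv ℝ (conormal f) y w) := by
  have h1 : ContDiff ℝ ∞ (fderiv ℝ (conormal f)) := hs.contDiff_conormal.fderiv_right (by simp)
  exact h1.clm_apply contDiff_const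

theorem Sph.inner_dual_second (x v w : E2) :
    ⟪fderiv ℝ (fun y => fderiv ℝ (conormal f) y w) x v, f x⟫ = k x v w := by
  have h1 : HasFDerivAt (fun y => ⟪fderiv ℝ (conormal f) y w, f y⟫) _ x :=
    (((hs.contDiff_dual_apply w).differentiable (by simp)) x).hasFDerivAt.inner ℝ
      (hs.differentiable x).hasFDerivAt
  have h2 : (fun y => ⟪fderiv ℝ (conormal f) y w, f y⟫) = fun _ => (0 : ℝ) := by
    ext y
    exact hs.inner_dual_self y w
  rw [h2] at h1
  have h3 := h1.unique (hasFDerivAt_const (0 : ℝ) x)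
  have h4 := congrArg (fun L => L v) h3
  simp only [ContinuousLinearMap.comp_apply, fderivInnerCLM_apply,
    ContinuousLinearMap.prod_apply, zero_apply, hs.inner_dual_tan] at h4
  rw [hs.symm x w v] at h4
  linarith

theorem Sph.injective_dual (x : E2) : Function.Injective (fderiv ℝ (conormal f) x) := by
  rw [injective_iff_map_eq_zero]
  intro v hv
  by_contra hne
  have h1 := hs.inner_dual_tan x v v
  rw [hv, inner_zero_left] at h1
  linarith [hs.pos x v hne]

theorem Sph.f_ne_zero (x : E2) : f x ≠ 0 := by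
  intro h
  have := hs.inner_self x
  rw [h, inner_zero_right] at this
  exact zero_ne_one this

/-- Every vector orthogonal to `f x` is tangent to the conormal map. -/
theorem Sph.exists_dual (x : E2) (y : E3) (hy : ⟪y, f x⟫ = 0) :
    ∃ u, fderiv ℝ (conormal f) x u = y := by
  have hle : LinearMap.range (fderiv ℝ (conormal f) x : E2 →ₗ[ℝ] E3) ≤ (ℝ ∙ f x)ᗮ := by
    rintro _ ⟨v, rfl⟩
    rw [Submodule.mem_orthogonal_singleton_iff_inner_left]
    exact hs.inner_dual_self x v
  have hr : Module.finrank ℝ (LinearMap.range (fderiv ℝ (conormal f) x : E2 →ₗ[ℝ] E3)) = 2 := by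
    rw [LinearMap.finrank_range_of_inj (hs.injective_dual x)]
    simp
  have ho : Module.finrank ℝ ((ℝ ∙ f x)ᗮ : Submodule ℝ E3) = 2 := by
    have : Fact (Module.finrank ℝ E3 = 2 + 1) := ⟨by simp⟩
    exact Submodule.finrank_orthogonal_span_singleton (hs.f_ne_zero x)
  have heq := Submodule.eq_of_le_of_finrank_eq hle (by rw [hr, ho])
  have hmem : y ∈ ((ℝ ∙ f x)ᗮ : Submodule ℝ E3) :=
    (Submodule.mem_orthogonal_singleton_iff_inner_left).2 hy
  rw [← heq] at hmem
  obtain ⟨u, hu⟩ := hmem
  exact ⟨u, hu⟩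

theorem Sph.det_dual (x : E2) :
    det3 (fderiv ℝ (conormal f) x (e 0)) (fderiv ℝ (conormal f) x (e 1)) (conormal f x) *
      det3 (fderiv ℝ f x (e 0)) (fderiv ℝ f x (e 1)) (f x) =
    k x (e 0) (e 0) * k x (e 1) (e 1) - k x (e 0) (e 1) * k x (e 1) (e 0) := by
  rw [det3_mul_det3]
  simp only [hs.inner_dual_tan, hs.inner_dual_self, hs.inner_self, hs.inner_tan]
  ring

/-- The conormal map satisfies the same structure equations with the same `k`. -/
theorem Sph.dual_gauss (x v w : E2) : ∃ u : E2,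
    fderiv ℝ (fun y => fderiv ℝ (conormal f) y w) x v =
      fderiv ℝ (conormal f) x u + k x v w • conormal f x := by
  obtain ⟨u, hu⟩ := hs.exists_dual x
    (fderiv ℝ (fun y => fderiv ℝ (conormal f) y w) x v - k x v w • conormal f x) (by
      rw [inner_sub_left, hs.inner_dual_second, real_inner_smul_left, hs.inner_self]
      ring)
  exact ⟨u, by rw [hu]; abel⟩

end

/-- From the Blaschke structure of an affine sphere to the scaled structure equation. -/
theorem sph_of_sphere {H : ℝ} {f : E2 → E3} {h : E2 → LinearMap.BilinForm ℝ E2}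
    (hf : IsSphereW H f h) : Sph f (fun x => (-H) • h x) where
  smooth := hf.2.smooth
  symm x v w := by
    simp only [LinearMap.smul_apply, smul_eq_mul]
    rw [hf.2.symm]
  pos x v hv := by
    simp only [LinearMap.smul_apply, smul_eq_mul]
    exact mul_pos (by linarith [hf.1]) (hf.2.pos x v hv)
  gauss x v w := by
    obtain ⟨u, hu⟩ := hf.2.gauss x v w
    refine ⟨u, ?_⟩
    rw [hu]
    simp only [LinearMap.smul_apply, smul_eq_mul, smul_smul]
    rw [mul_comm]
  det_ne x h0 := by
    have h1 := hf.2.volume x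
    rw [det3_smul_right, h0, mul_zero] at h1
    -- positivity of the determinant of a positive definite form
    have hsy := hf.2.symm x (e 0) (e 1)
    set a := h x (e 0) (e 0)
    set b := h x (e 0) (e 1)
    set c := h x (e 1) (e 1)
    have ha : 0 < a := hf.2.pos x (e 0) (by
      intro h2
      have := congrArg (fun v : E2 => v 0) h2
      simp [e] at this)
    have hv : (-b) • e 0 + a • e 1 ≠ (0 : E2) := by
      intro h2
      have := congrArg (fun v : E2 => v 1) h2
      simp [e] at this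
      exact ha.ne' this
    have h3 := hf.2.pos x _ hv
    simp only [map_add, map_smul, LinearMap.add_apply, LinearMap.smul_apply, smul_eq_mul] at h3
    rw [← hsy] at h3 h1
    have h4 : a * (a * c - b * b) > 0 := by
      have : a * (a * c - b * b) = -b * (-b * a + a * b) + a * (-b * b + a * c) := by ring
      rw [this]
      convert h3 using 1
    have h5 : a * c - b * b = 0 := by nlinarith [h1]
    rw [h5, mul_zero] at h4
    exact lt_irrefl _ h4

/-- The dual affine sphere: a multiple of the conormal map is a hyperbolic affine sphere with the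
same Blaschke metric and the same affine mean curvature. -/
theorem dual_sphere {H : ℝ} {f : E2 → E3} {h : E2 → LinearMap.BilinForm ℝ E2}
    (hf : IsSphereW H f h) :
    ∃ a : ℝ, 0 < a ∧ IsSphereW H (fun x => a • conormal f x) h := by
  have hs := sph_of_sphere hf
  have hμ : 0 < -H := by linarith [hf.1]
  set μ := -H with hμd
  let a : ℝ := μ ^ (-(4 / 3) : ℝ)
  have ha : 0 < a := Real.rpow_pos_of_pos hμ _
  have ha3 : a ^ 3 = (μ ^ 4)⁻¹ := by
    have : a ^ 3 = μ ^ ((-(4 / 3) : ℝ) * 3) := by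
      rw [Real.rpow_mul hμ.le]
      norm_cast
    rw [this]
    have h4 : ((-(4 / 3) : ℝ) * 3) = -(4 : ℕ) := by norm_num
    rw [h4, Real.rpow_neg hμ.le, Real.rpow_natCast]
  have hd : ∀ x v, fderiv ℝ (fun x => a • conormal f x) x v = a • fderiv ℝ (conormal f) x v := by
    intro x v
    rw [fderiv_fun_const_smul (hs.differentiable_conormal x)]
    rfl
  refine ⟨a, ha, hf.1, ?_⟩
  refine ⟨hs.contDiff_conormal.const_smul a, ?_, hf.2.symm, hf.2.pos, ?_, ?_, ?_⟩
  · intro x v w hvw
    rw [hd, hd] at hvw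
    exact hs.injective_dual x (smul_right_injective _ ha.ne' hvw)
  · intro x v w
    obtain ⟨u, hu⟩ := hs.dual_gauss x v w
    refine ⟨u, ?_⟩
    have h1 : (fun y => fderiv ℝ (fun x => a • conormal f x) y w) =
        fun y => a • fderiv ℝ (conormal f) y w := by
      ext1 y
      exact hd y w
    rw [h1, fderiv_fun_const_smul (((hs.contDiff_dual_apply w).differentiable (by simp)) x)]
    rw [hd, smul_apply, hu]
    simp only [LinearMap.smul_apply, smul_eq_mul, smul_add, smul_smul]
    congr 2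
    ring
  · intro x v
    refine ⟨μ • v, ?_⟩
    rw [hd, map_smul]
    have h1 : (fun x => μ • a • conormal f x) = fun x => (μ * a) • conormal f x := by
      ext1 y
      rw [smul_smul]
    rw [h1, fderiv_fun_const_smul (hs.differentiable_conormal x)]
    rw [smul_apply, smul_smul, mul_comm]
  · intro x
    have h1 := hs.det_dual x
    have h2 := hf.2.volume x
    rw [det3_smul_right] at h2 ⊢
    rw [hd, hd, det3_smul_all]
    set D := det3 (fderiv ℝ f x (e 0)) (fderiv ℝ f x (e 1)) (f x) with hD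
    set D' := det3 (fderiv ℝ (conormal f) x (e 0)) (fderiv ℝ (conormal f) x (e 1))
      (conormal f x) with hD'
    have hDne : D ≠ 0 := hs.det_ne x
    simp only [LinearMap.smul_apply, smul_eq_mul] at h1
    set Q := h x (e 0) (e 0) * h x (e 1) (e 1) - h x (e 0) (e 1) * h x (e 1) (e 0) with hQ
    have h3 : D' * D = μ ^ 2 * Q := by
      rw [h1, hQ]
      ring
    have h4 : Q = μ ^ 2 * D ^ 2 := by
      rw [← h2]
      ring
    have h5 : D' = μ ^ 4 * D := by
      have : D' * D = (μ ^ 4 * D) * D := by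
        rw [h3, h4]
        ring
      exact mul_right_cancel₀ hDne this
    rw [ha3, h5, h4]
    field_simp
    rw [hμd]
    ring

end Pool.Agent.Hhelper67.Aff
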