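import Mathlib
import Pool.Agent.Hhelper67.Aff.Conormal

/-!
# The support inequality for affine spheres which are radial graphs over a convex cone
-/

set_option autoImplicit false

open Set Filter Topology Metric
open scoped ContDiff RealInnerProductSpace

namespace Pool.Agent.Hhelper67.Aff

variable {f : E2 → E3} {k : E2 → LinearMap.BilinForm ℝ E2} {K : Set E3}

/-- Homogeneous coordinates attached to `f`. -/
noncomputable def Phi (f : E2 → E3) (p : E2 × ℝ) : E3 := p.2 • f p.1

theorem Sph.injective (hs : Sph f k) (x : E2) : Function.Injective (fderiv ℝ f x) := by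
  rw [injective_iff_map_eq_zero]
  intro v hv
  by_contra hne
  have h1 := hs.inner_dual_tan x v v
  rw [hv, inner_zero_right] at h1
  linarith [hs.pos x v hne]

theorem Sph.contDiff_Phi (hs : Sph f k) : ContDiff ℝ ∞ (Phi f) :=
  contDiff_snd.smul (hs.smooth.comp contDiff_fst)

/-- The derivative of `Phi`. -/
noncomputable def dPhi (f : E2 → E3) (x : E2) (t : ℝ) : E2 × ℝ →L[ℝ] E3 :=
  t • (fderiv ℝ f x).comp (ContinuousLinearMap.fst ℝ E2 ℝ) +
    (ContinuousLinearMap.snd ℝ E2 ℝ).smulRight (f x)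

theorem dPhi_apply (x : E2) (t : ℝ) (w : E2 × ℝ) :
    dPhi f x t w = t • fderiv ℝ f x w.1 + w.2 • f x := by
  simp [dPhi]

theorem Sph.hasFDerivAt_Phi (hs : Sph f k) (x : E2) (t : ℝ) :
    HasFDerivAt (Phi f) (dPhi f x t) (x, t) := by
  have h1 : HasFDerivAt (fun p : E2 × ℝ => f p.1)
      ((fderiv ℝ f x).comp (ContinuousLinearMap.fst ℝ E2 ℝ)) (x, t) :=
    HasFDerivAt.comp (x, t) (f := fun p : E2 × ℝ => p.1) (g := f)
      (hs.differentiable x).hasFDerivAt hasFDerivAt_fst
  have h2 : HasFDerivAt (fun p : E2 × ℝ => p.2) (ContinuousLinearMap.snd ℝ E2 ℝ) (x, t) :=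
    hasFDerivAt_snd
  exact h2.smul h1

theorem Sph.bijective_dPhi (hs : Sph f k) (x : E2) {t : ℝ} (ht : t ≠ 0) :
    Function.Bijective (dPhi f x t) := by
  have hinj : Function.Injective (dPhi f x t : E2 × ℝ →ₗ[ℝ] E3) := by
    rw [injective_iff_map_eq_zero]
    rintro ⟨v, s⟩ hv
    have hv' : t • fderiv ℝ f x v + s • f x = 0 := by
      have := dPhi_apply (f := f) x t (v, s)
      rw [← this]
      exact hv
    have h1 := congrArg (fun y => ⟪conormal f x, y⟫) hv'
    simp only [inner_add_right, inner_smul_right, hs.inner_tan, hs.inner_self, inner_zero_right,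
      mul_zero, mul_one, zero_add] at h1
    rw [h1, zero_smul, add_zero] at hv'
    have h2 : fderiv ℝ f x v = 0 := by
      rcases smul_eq_zero.1 hv' with h | h
      · exact absurd h ht
      · exact h
    have h3 : v = 0 := by
      apply hs.injective x
      rw [h2, map_zero]
    rw [h3, h1]
    rfl
  have hfin : Module.finrank ℝ (E2 × ℝ) = Module.finrank ℝ E3 := by simp
  exact ⟨hinj, (LinearMap.injective_iff_surjective_of_finrank_eq_finrank hfin).1 hinj⟩

theorem Sph.isAsymp_pos_unique (hs : Sph f k) (ha : IsAsymptoticTo f K) {x y : E2} {s t : ℝ}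
    (hst : 0 < s) (ht : 0 < t) (hp : s • f x ∈ interior K) (h : s • f x = t • f y) :
    x = y ∧ s = t := by
  obtain ⟨z, -, hz⟩ := ha.radial _ hp
  have h1 : x = z := hz x ⟨s⁻¹, inv_pos.2 hst, by rw [smul_smul, inv_mul_cancel₀ hst.ne', one_smul]⟩
  have h2 : y = z := hz y ⟨t⁻¹, inv_pos.2 ht, by
    rw [h, smul_smul, inv_mul_cancel₀ ht.ne', one_smul]⟩
  have h3 : x = y := h1.trans h2.symm
  refine ⟨h3, ?_⟩
  rw [h3] at h
  exact smul_left_injective ℝ (hs.f_ne_zero y) h

theorem exists_psi (ha : IsAsymptoticTo f K) {p : E3} (hp : p ∈ interior K) :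
    ∃ q : E2 × ℝ, 0 < q.2 ∧ q.2 • f q.1 = p := by
  obtain ⟨x, ⟨t, ht, hx⟩, -⟩ := ha.radial p hp
  exact ⟨(x, t⁻¹), inv_pos.2 ht, by
    change t⁻¹ • f x = p
    rw [hx, smul_smul, inv_mul_cancel₀ ht.ne', one_smul]⟩

open Classical in
/-- The inverse of `Phi` over the interior of `K`. -/
noncomputable def Psi (ha : IsAsymptoticTo f K) (p : E3) : E2 × ℝ :=
  if hp : p ∈ interior K then (exists_psi ha hp).choose else 0

theorem Psi_pos (ha : IsAsymptoticTo f K) {p : E3} (hp : p ∈ interior K) : 0 < (Psi ha p).2 := by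
  rw [Psi, dif_pos hp]
  exact (exists_psi ha hp).choose_spec.1

theorem Psi_spec (ha : IsAsymptoticTo f K) {p : E3} (hp : p ∈ interior K) :
    (Psi ha p).2 • f (Psi ha p).1 = p := by
  rw [Psi, dif_pos hp]
  exact (exists_psi ha hp).choose_spec.2

theorem Psi_eq (hs : Sph f k) (ha : IsAsymptoticTo f K) {p : E3} (hp : p ∈ interior K) {x : E2}
    {t : ℝ} (ht : 0 < t) (h : t • f x = p) : Psi ha p = (x, t) := by
  have h1 := hs.isAsymp_pos_unique ha (Psi_pos ha hp) ht
    (by rw [Psi_spec ha hp]; exact hp) ((Psi_spec ha hp).trans h.symm)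
  exact Prod.ext h1.1 h1.2

theorem Psi_f (hs : Sph f k) (ha : IsAsymptoticTo f K) (x : E2) : Psi ha (f x) = (x, 1) :=
  Psi_eq hs ha (ha.mem_interior x) one_pos (one_smul ℝ _)

theorem contDiffAt_Psi (hs : Sph f k) (ha : IsAsymptoticTo f K) {p : E3} (hp : p ∈ interior K) :
    ContDiffAt ℝ ∞ (Psi ha) p := by
  set q := Psi ha p with hq
  have hq2 : 0 < q.2 := Psi_pos ha hp
  have hqp : Phi f q = p := Psi_spec ha hp
  let L : (E2 × ℝ) ≃L[ℝ] E3 :=
    ContinuousLinearEquiv.ofBijective (dPhi f q.1 q.2)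
      (LinearMap.ker_eq_bot.2 (hs.bijective_dPhi q.1 hq2.ne').1)
      (LinearMap.range_eq_top.2 (hs.bijective_dPhi q.1 hq2.ne').2)
  have hL : (L : E2 × ℝ →L[ℝ] E3) = dPhi f q.1 q.2 := by
    exact ContinuousLinearMap.ext fun v => rfl
  have hc : ContDiffAt ℝ ∞ (Phi f) q := hs.contDiff_Phi.contDiffAt
  have hd : HasFDerivAt (Phi f) (L : E2 × ℝ →L[ℝ] E3) q := by
    rw [hL]
    exact hs.hasFDerivAt_Phi q.1 q.2
  have hn : (∞ : WithTop ℕ∞) ≠ 0 := by simp
  have hli := hc.to_localInverse hd hn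
  rw [hqp] at hli
  have hstrict := hc.hasStrictFDerivAt' hd hn
  have hev : ∀ᶠ y in 𝓝 p, Phi f (hc.localInverse hd hn y) = y := by
    have := hstrict.eventually_right_inverse
    rw [hqp] at this
    exact this
  have himg : hc.localInverse hd hn p = q := by
    have := hc.localInverse_apply_image hd hn
    rw [hqp] at this
    exact this
  have hpos : ∀ᶠ y in 𝓝 p, 0 < (hc.localInverse hd hn y).2 := by
    have hcont := hli.continuousAt
    have h2 : ContinuousAt (fun y => (hc.localInverse hd hn y).2) p := hcont.snd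
    exact (continuousAt_const.eventually_lt h2 (by rw [himg]; exact hq2))
  have hint : ∀ᶠ y in 𝓝 p, y ∈ interior K := isOpen_interior.mem_nhds hp
  refine hli.congr_of_eventuallyEq ?_
  filter_upwards [hev, hpos, hint] with y h1 h2 h3
  exact Psi_eq hs ha h3 h2 h1

/-- The derivative of the second component of `Psi`. -/
theorem hasFDerivAt_Psi (hs : Sph f k) (ha : IsAsymptoticTo f K) {p : E3} (hp : p ∈ interior K)
    (v : E3) :
    (fderiv ℝ (Psi ha) p v).2 = ⟪conormal f (Psi ha p).1, v⟫ ∧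
    (Psi ha p).2 • fderiv ℝ f (Psi ha p).1 (fderiv ℝ (Psi ha) p v).1 +
      (fderiv ℝ (Psi ha) p v).2 • f (Psi ha p).1 = v := by
  have hd : HasFDerivAt (Psi ha) (fderiv ℝ (Psi ha) p) p :=
    ((contDiffAt_Psi hs ha hp).differentiableAt (by simp)).hasFDerivAt
  have h1 : HasFDerivAt (fun y => Phi f (Psi ha y)) _ p :=
    HasFDerivAt.comp p (g := Phi f) (f := Psi ha)
      (hs.hasFDerivAt_Phi (Psi ha p).1 (Psi ha p).2) hd
  have h2 : (fun y => Phi f (Psi ha y)) =ᶠ[𝓝 p] fun y => y := by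
    filter_upwards [isOpen_interior.mem_nhds hp] with y hy
    exact Psi_spec ha hy
  have h3 := (h2.hasFDerivAt_iff.1 h1).unique (hasFDerivAt_id p)
  have h4 : dPhi f (Psi ha p).1 (Psi ha p).2 (fderiv ℝ (Psi ha) p v) = v := by
    have := congrArg (fun L => L v) h3
    simpa using this
  rw [dPhi_apply] at h4
  refine ⟨?_, h4⟩
  have h5 := congrArg (fun y => ⟪conormal f (Psi ha p).1, y⟫) h4
  simp only [inner_add_right, inner_smul_right, hs.inner_tan, hs.inner_self] at h5
  linarith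

/-- The support inequality. -/
theorem support_lt (hs : Sph f k) (hK : IsRegularCone K) (ha : IsAsymptoticTo f K) {x y : E2}
    (hxy : x ≠ y) : 1 < ⟪conormal f x, f y⟫ := by
  set v := f y - f x with hv
  have hmem : ∀ s ∈ Icc (0 : ℝ) 1, f x + s • v ∈ interior K := by
    intro s hs'
    have := hK.convex.interior (ha.mem_interior x) (ha.mem_interior y)
      (sub_nonneg.2 hs'.2) hs'.1 (by ring : (1 - s) + s = 1)
    convert this using 1
    rw [hv]
    module
  let γ : ℝ → E3 := fun s => f x + s • v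
  have hγ : ∀ s, HasDerivAt γ v s := by
    intro s
    have := ((hasDerivAt_id s).smul_const v).const_add (f x)
    rw [one_smul] at this
    exact this
  let q : ℝ → E2 × ℝ := fun s => Psi ha (γ s)
  have hq : ∀ s ∈ Icc (0 : ℝ) 1, HasDerivAt q (fderiv ℝ (Psi ha) (γ s) v) s := by
    intro s hs'
    have h1 : HasFDerivAt (Psi ha) (fderiv ℝ (Psi ha) (γ s)) (γ s) :=
      ((contDiffAt_Psi hs ha (hmem s hs')).differentiableAt (by simp)).hasFDerivAt
    exact h1.comp_hasDerivAt s (hγ s)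
  let G : ℝ → ℝ := fun s => (q s).2
  let g : ℝ → ℝ := fun s => ⟪conormal f (q s).1, v⟫
  have hG : ∀ s ∈ Icc (0 : ℝ) 1, HasDerivAt G (g s) s := by
    intro s hs'
    have h1 : HasDerivAt G (fderiv ℝ (Psi ha) (γ s) v).2 s := (hq s hs').snd
    rw [(hasFDerivAt_Psi hs ha (hmem s hs') v).1] at h1
    exact h1
  let z' : ℝ → E2 := fun s => (fderiv ℝ (Psi ha) (γ s) v).1
  have hveq : ∀ s ∈ Icc (0 : ℝ) 1, G s • fderiv ℝ f (q s).1 (z' s) + g s • f (q s).1 = v := by
    intro s hs'
    have h1 := (hasFDerivAt_Psi hs ha (hmem s hs') v)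
    have h2 := h1.2
    rw [h1.1] at h2
    exact h2
  have hg : ∀ s ∈ Icc (0 : ℝ) 1, HasDerivAt g (-(G s * k (q s).1 (z' s) (z' s))) s := by
    intro s hs'
    have h1 : HasDerivAt (fun s => (q s).1) (z' s) s := (hq s hs').fst
    have h2 : HasDerivAt (fun s => conormal f (q s).1)
        (fderiv ℝ (conormal f) (q s).1 (z' s)) s :=
      HasFDerivAt.comp_hasDerivAt (f := fun s => (q s).1) (l := conormal f) s
        (hs.differentiable_conormal (q s).1).hasFDerivAt h1
    have h3 : HasDerivAt g (⟪conormal f (q s).1, (0 : E3)⟫ +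
        ⟪fderiv ℝ (conormal f) (q s).1 (z' s), v⟫) s := h2.inner ℝ (hasDerivAt_const s v)
    convert h3 using 1
    rw [inner_zero_right, zero_add]
    conv_rhs => rw [← hveq s hs']
    rw [inner_add_right, inner_smul_right, inner_smul_right, hs.inner_dual_tan,
      hs.inner_dual_self]
    ring
  have hG0 : G 0 = 1 := by
    change (Psi ha (f x + (0 : ℝ) • v)).2 = 1
    rw [zero_smul, add_zero, Psi_f hs ha]
  have hG1 : G 1 = 1 := by
    change (Psi ha (f x + (1 : ℝ) • v)).2 = 1
    rw [one_smul, hv, add_sub_cancel, Psi_f hs ha]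
  have hGc : ContinuousOn G (Icc 0 1) := fun s hs' => (hG s hs').continuousAt.continuousWithinAt
  have hgc : ContinuousOn g (Icc 0 1) := fun s hs' => (hg s hs').continuousAt.continuousWithinAt
  obtain ⟨c, hc, hgc0⟩ := exists_hasDerivAt_eq_zero (f := G) (f' := g) one_pos hGc
    (hG0.trans hG1.symm) (fun s hs' => hG s (Ioo_subset_Icc_self hs'))
  have hGpos : ∀ s ∈ Icc (0 : ℝ) 1, 0 < G s := fun s hs' => Psi_pos ha (hmem s hs')
  have hk : ∀ s, 0 ≤ k (q s).1 (z' s) (z' s) := by
    intro s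
    by_cases h0 : z' s = 0
    · rw [h0]
      simp
    · exact (hs.pos _ _ h0).le
  have hanti : AntitoneOn g (Icc 0 1) := by
    apply antitoneOn_of_deriv_nonpos (convex_Icc 0 1) hgc
    · intro s hs'
      rw [interior_Icc] at hs'
      exact (hg s (Ioo_subset_Icc_self hs')).differentiableAt.differentiableWithinAt
    · intro s hs'
      rw [interior_Icc] at hs'
      rw [(hg s (Ioo_subset_Icc_self hs')).deriv]
      have := mul_nonneg (hGpos s (Ioo_subset_Icc_self hs')).le (hk s)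
      linarith
  have hg0 : g 0 = ⟪conormal f x, f y⟫ - 1 := by
    change ⟪conormal f (Psi ha (f x + (0 : ℝ) • v)).1, v⟫ = _
    rw [zero_smul, add_zero, Psi_f hs ha, hv, inner_sub_right, hs.inner_self]
  have h0c : g c ≤ g 0 := hanti (left_mem_Icc.2 zero_le_one) (Ioo_subset_Icc_self hc) hc.1.le
  rw [hgc0] at h0c
  rcases h0c.lt_or_eq with h | h
  · linarith
  · exfalso
    -- `g` vanishes on `[0, c]`
    have hz : ∀ s ∈ Ioo (0 : ℝ) c, g s = 0 := by
      intro s hs'
      have hsI : s ∈ Icc (0 : ℝ) 1 := ⟨hs'.1.le, hs'.2.le.trans hc.2.le⟩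
      have h1 : g s ≤ g 0 := hanti (left_mem_Icc.2 zero_le_one) hsI hs'.1.le
      have h2 : g c ≤ g s := hanti hsI (Ioo_subset_Icc_self hc) hs'.2.le
      rw [hgc0] at h2
      rw [← h] at h1
      exact le_antisymm h1 h2
    have hsm : c / 2 ∈ Ioo (0 : ℝ) c := ⟨by linarith [hc.1], by linarith [hc.1]⟩
    have hsI : c / 2 ∈ Icc (0 : ℝ) 1 := ⟨hsm.1.le, hsm.2.le.trans hc.2.le⟩
    have hev : g =ᶠ[𝓝 (c / 2)] fun _ => (0 : ℝ) := by
      filter_upwards [Ioo_mem_nhds hsm.1 hsm.2] with s hs'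
      exact hz s hs'
    have h1 := (hev.hasDerivAt_iff.1 (hg _ hsI)).unique (hasDerivAt_const (c / 2) (0 : ℝ))
    have h2 : k (q (c / 2)).1 (z' (c / 2)) (z' (c / 2)) = 0 := by
      have := (hGpos _ hsI).ne'
      have h3 : G (c / 2) * k (q (c / 2)).1 (z' (c / 2)) (z' (c / 2)) = 0 := by linarith
      rcases mul_eq_zero.1 h3 with h4 | h4
      · exact absurd h4 this
      · exact h4
    have h3 : z' (c / 2) = 0 := by
      by_contra h4
      exact (hs.pos _ _ h4).ne' h2
    have h4 := hveq _ hsI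
    rw [h3, map_zero, smul_zero, hz _ hsm, zero_smul, add_zero] at h4
    have h5 : f x = f y := by
      have : f y - f x = 0 := by rw [← hv, ← h4]
      exact (sub_eq_zero.1 this).symm
    exact hxy (ha.isClosedEmbedding.injective h5)

theorem support_le (hs : Sph f k) (hK : IsRegularCone K) (ha : IsAsymptoticTo f K) (x y : E2) :
    1 ≤ ⟪conormal f x, f y⟫ := by
  by_cases hxy : x = y
  · rw [hxy, hs.inner_self]
  · exact (support_lt hs hK ha hxy).le

end Pool.Agent.Hhelper67.Aff
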