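import Mathlib
import Pool.Agent.Hhelper67.Aff.Support

/-!
# The dual affine sphere is asymptotic to the dual cone
-/

set_option autoImplicit false

open Set Filter Topology Metric
open scoped ContDiff RealInnerProductSpace

namespace Pool.Agent.Hhelper67.Aff

variable {f : E2 → E3} {k : E2 → LinearMap.BilinForm ℝ E2} {K : Set E3}

theorem IsRegularCone.add_mem (hK : IsRegularCone K) {x y : E3} (hx : x ∈ K) (hy : y ∈ K) :
    x + y ∈ K := by
  have h1 := hK.convex hx hy (by norm_num : (0 : ℝ) ≤ 1 / 2) (by norm_num : (0 : ℝ) ≤ 1 / 2)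
    (by norm_num)
  have h2 := hK.smul_mem 2 (by norm_num) _ h1
  convert h2 using 1
  module

theorem IsRegularCone.zero_mem (hK : IsRegularCone K) : (0 : E3) ∈ K := by
  obtain ⟨a, ha⟩ := hK.interior_nonempty
  simpa using hK.smul_mem 0 le_rfl a (interior_subset ha)

theorem IsRegularCone.zero_notMem_interior (hK : IsRegularCone K) : (0 : E3) ∉ interior K := by
  intro h
  rw [mem_interior_iff_mem_nhds, Metric.mem_nhds_iff] at h
  obtain ⟨ε, hε, hb⟩ := h
  obtain ⟨w, hw⟩ : ∃ w : E3, w ≠ 0 := exists_ne 0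
  have hw' : 0 < ‖w‖ := norm_pos_iff.2 hw
  let u : E3 := (ε / (2 * ‖w‖)) • w
  have hnu : ‖u‖ = ε / 2 := by
    rw [norm_smul, Real.norm_of_nonneg (by positivity)]
    field_simp
  have h1 : u ∈ K := hb (by rw [mem_ball_zero_iff, hnu]; linarith)
  have h2 : -u ∈ K := hb (by rw [mem_ball_zero_iff, norm_neg, hnu]; linarith)
  have h3 := hK.pointed u h1 h2
  rw [h3, norm_zero] at hnu
  linarith

theorem IsRegularCone.zero_mem_frontier (hK : IsRegularCone K) : (0 : E3) ∈ frontier K := by
  rw [hK.isClosed.frontier_eq]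
  exact ⟨hK.zero_mem, hK.zero_notMem_interior⟩

theorem IsRegularCone.ball_subset (hK : IsRegularCone K) {a x : E3} {r s : ℝ} (hb : ball a r ⊆ K)
    (hx : x ∈ K) (hs : 0 < s) : ball (x + s • a) (s * r) ⊆ K := by
  intro y hy
  rw [mem_ball, dist_eq_norm] at hy
  have h1 : s⁻¹ • (y - x) ∈ ball a r := by
    rw [mem_ball, dist_eq_norm]
    have : s⁻¹ • (y - x) - a = s⁻¹ • (y - (x + s • a)) := by
      rw [smul_sub, smul_sub, smul_add, smul_smul, inv_mul_cancel₀ hs.ne', one_smul]
      abel
    rw [this, norm_smul, norm_inv, Real.norm_of_nonneg hs.le, inv_mul_lt_iff₀ hs]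
    exact hy
  have h2 := hK.smul_mem s hs.le _ (hb h1)
  rw [smul_smul, mul_inv_cancel₀ hs.ne', one_smul] at h2
  have h3 := hK.add_mem hx h2
  rwa [add_sub_cancel] at h3

theorem IsRegularCone.exists_ball (hK : IsRegularCone K) :
    ∃ a : E3, ∃ r > 0, ball a r ⊆ K := by
  obtain ⟨a, ha⟩ := hK.interior_nonempty
  rw [mem_interior_iff_mem_nhds, Metric.mem_nhds_iff] at ha
  obtain ⟨r, hr, hb⟩ := ha
  exact ⟨a, r, hr, hb⟩

theorem mem_interior_of_ball {a : E3} {r : ℝ} (hr : 0 < r) (hb : ball a r ⊆ K) :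
    a ∈ interior K :=
  mem_interior_iff_mem_nhds.2 (Filter.mem_of_superset (ball_mem_nhds a hr) hb)

theorem exists_delta (hK : IsRegularCone K) {η : E3}
    (h : ∀ x ∈ K, x ≠ 0 → 0 < ⟪η, x⟫) : ∃ δ > 0, ∀ x ∈ K, δ * ‖x‖ ≤ ⟪η, x⟫ := by
  have hc : IsCompact (K ∩ sphere (0 : E3) 1) := (isCompact_sphere 0 1).inter_left hK.isClosed
  rcases (K ∩ sphere (0 : E3) 1).eq_empty_or_nonempty with he | hne
  · refine ⟨1, one_pos, ?_⟩
    intro x hx
    by_cases h0 : x = 0
    · simp [h0]
    · exfalso
      have hn : 0 < ‖x‖ := norm_pos_iff.2 h0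
      have : ‖x‖⁻¹ • x ∈ K ∩ sphere (0 : E3) 1 := by
        refine ⟨hK.smul_mem _ (inv_nonneg.2 hn.le) x hx, ?_⟩
        rw [mem_sphere_zero_iff_norm, norm_smul, norm_inv, norm_norm, inv_mul_cancel₀ hn.ne']
      rw [he] at this
      exact this
  · obtain ⟨x0, hx0, hmin⟩ := hc.exists_isMinOn hne
      (f := fun x => ⟪η, x⟫) (by fun_prop)
    have hx0n : x0 ≠ 0 := by
      intro h0
      have := hx0.2
      rw [h0, mem_sphere_zero_iff_norm, norm_zero] at this
      exact zero_ne_one this
    refine ⟨⟪η, x0⟫, h x0 hx0.1 hx0n, ?_⟩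
    intro x hx
    by_cases h0 : x = 0
    · simp [h0]
    · have hn : 0 < ‖x‖ := norm_pos_iff.2 h0
      have hm : ‖x‖⁻¹ • x ∈ K ∩ sphere (0 : E3) 1 := by
        refine ⟨hK.smul_mem _ (inv_nonneg.2 hn.le) x hx, ?_⟩
        rw [mem_sphere_zero_iff_norm, norm_smul, norm_inv, norm_norm, inv_mul_cancel₀ hn.ne']
      have h1 : ⟪η, x0⟫ ≤ ⟪η, ‖x‖⁻¹ • x⟫ := hmin hm
      rw [inner_smul_right] at h1
      rw [← div_eq_inv_mul, le_div_iff₀ hn] at h1
      exact h1

theorem mem_interior_dualCone (hK : IsRegularCone K) {η : E3}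
    (h : ∀ x ∈ K, x ≠ 0 → 0 < ⟪η, x⟫) : η ∈ interior (dualCone K) := by
  obtain ⟨δ, hδ, hd⟩ := exists_delta hK h
  apply mem_interior_of_ball hδ
  intro y hy x hx
  rw [mem_ball, dist_eq_norm] at hy
  have h1 := hd x hx
  have h2 : |⟪y - η, x⟫| ≤ ‖y - η‖ * ‖x‖ := abs_real_inner_le_norm _ _
  have h3 : ⟪y, x⟫ = ⟪η, x⟫ + ⟪y - η, x⟫ := by
    rw [inner_sub_left]
    ring
  have h4 := neg_abs_le ⟪y - η, x⟫
  have h5 : ‖y - η‖ * ‖x‖ ≤ δ * ‖x‖ := by gcongr
  rw [h3]
  linarith

theorem pos_of_mem_interior_dualCone {η : E3} (h : η ∈ interior (dualCone K)) :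
    ∀ x ∈ K, x ≠ 0 → 0 < ⟪η, x⟫ := by
  intro x hx h0
  rw [mem_interior_iff_mem_nhds, Metric.mem_nhds_iff] at h
  obtain ⟨ε, hε, hb⟩ := h
  have hn : 0 < ‖x‖ := norm_pos_iff.2 h0
  have h1 : η - (ε / (2 * ‖x‖)) • x ∈ dualCone K := by
    apply hb
    rw [mem_ball, dist_eq_norm]
    have : η - (ε / (2 * ‖x‖)) • x - η = -((ε / (2 * ‖x‖)) • x) := by abel
    rw [this, norm_neg, norm_smul, Real.norm_of_nonneg (by positivity)]
    field_simp
    linarith
  have h2 := h1 x hx
  rw [inner_sub_left, real_inner_smul_left, real_inner_self_eq_norm_sq] at h2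
  have h3 : 0 < ε / (2 * ‖x‖) * ‖x‖ ^ 2 := by positivity
  linarith

theorem conormal_nonneg (hs : Sph f k) (hK : IsRegularCone K) (ha : IsAsymptoticTo f K) (x : E2)
    {y : E3} (hy : y ∈ K) : 0 ≤ ⟪conormal f x, y⟫ := by
  have hint : ∀ p ∈ interior K, 0 < ⟪conormal f x, p⟫ := by
    intro p hp
    rw [← Psi_spec ha hp, inner_smul_right]
    exact mul_pos (Psi_pos ha hp) (lt_of_lt_of_le one_pos (support_le hs hK ha x _))
  obtain ⟨a, r, hr, hb⟩ := hK.exists_ball
  by_contra hneg
  push Not at hneg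
  have hA : 0 < ⟪conormal f x, a⟫ := hint a (mem_interior_of_ball hr hb)
  set c := ⟪conormal f x, y⟫ with hc
  set A := ⟪conormal f x, a⟫ with hAd
  have hs' : 0 < -c / A := div_pos (by linarith) hA
  have h1 : y + (-c / A) • a ∈ interior K :=
    mem_interior_of_ball (mul_pos hs' hr) (hK.ball_subset hb hy hs')
  have h2 := hint _ h1
  rw [inner_add_right, inner_smul_right, ← hc, ← hAd] at h2
  have h3 : -c / A * A = -c := div_mul_cancel₀ _ hA.ne'
  linarith

theorem conormal_pos (hs : Sph f k) (hK : IsRegularCone K) (ha : IsAsymptoticTo f K) (x : E2)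
    {y : E3} (hy : y ∈ K) (h0 : y ≠ 0) : 0 < ⟪conormal f x, y⟫ := by
  rcases (conormal_nonneg hs hK ha x hy).lt_or_eq with h | h
  · exact h
  exfalso
  obtain ⟨r, hr, hb⟩ : ∃ r > 0, ball (f x) r ⊆ K := by
    have := ha.mem_interior x
    rw [mem_interior_iff_mem_nhds, Metric.mem_nhds_iff] at this
    exact this
  have hp : y + f x ∈ interior K := by
    have h1 := hK.ball_subset hb hy one_pos
    rw [one_smul, one_mul] at h1
    exact mem_interior_of_ball hr h1
  set z := (Psi ha (y + f x)).1 with hz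
  set G := (Psi ha (y + f x)).2 with hG
  have hGpos : 0 < G := Psi_pos ha hp
  have hspec : G • f z = y + f x := Psi_spec ha hp
  have h1 : ⟪conormal f x, y + f x⟫ = 1 := by
    rw [inner_add_right, ← h, hs.inner_self, zero_add]
  rw [← hspec, inner_smul_right] at h1
  have h2 : ⟪conormal f z, y + f x⟫ = G := by
    rw [← hspec, inner_smul_right, hs.inner_self, mul_one]
  have h3 : 1 ≤ G := by
    rw [← h2, inner_add_right]
    linarith [conormal_nonneg hs hK ha z hy, support_le hs hK ha z x]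
  have h4 := support_le hs hK ha x z
  have h5 : x = z := by
    by_contra hne
    have := support_lt hs hK ha hne
    nlinarith
  rw [← h5] at h1 hspec
  rw [hs.inner_self, mul_one] at h1
  rw [h1, one_smul] at hspec
  exact h0 (by
    have : y + f x = 0 + f x := by rw [← hspec, zero_add]
    exact add_right_cancel this)

theorem tendsto_of_norm {z : ℕ → E2} (hf : Continuous f)
    (h : Tendsto (fun n => ‖f (z n)‖) atTop atTop) : Tendsto z atTop (cocompact E2) := by
  rw [(hasBasis_cocompact).tendsto_right_iff]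
  intro C hC
  obtain ⟨R, hR⟩ := (hC.image hf).isBounded.exists_norm_le
  filter_upwards [h.eventually_gt_atTop R] with n hn hmem
  exact absurd (hR _ ⟨_, hmem, rfl⟩) (not_le.2 hn)

/-- There is no `η` in the dual cone, vanishing at a nonzero point of the cone, with a positive
lower bound on the affine sphere. -/
theorem no_lower_bound (hK : IsRegularCone K) (ha : IsAsymptoticTo f K) {η k0 : E3}
    (hk0 : k0 ∈ K) (hk0' : k0 ≠ 0) (hηk : ⟪η, k0⟫ = 0) {c : ℝ} (hc : 0 < c)
    (hlow : ∀ z, c ≤ ⟪η, f z⟫) : False := by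
  obtain ⟨a, r, hr, hb⟩ := hK.exists_ball
  have haint : a ∈ interior K := mem_interior_of_ball hr hb
  have hA : 0 < ⟪η, a⟫ := by
    rw [← Psi_spec ha haint, inner_smul_right]
    exact mul_pos (Psi_pos ha haint) (lt_of_lt_of_le hc (hlow _))
  set A := ⟪η, a⟫ with hAd
  set s0 := c / (2 * A) with hs0
  have hs0pos : 0 < s0 := by positivity
  have hball : ∀ n : ℕ, ball ((n : ℝ) • k0 + s0 • a) (s0 * r) ⊆ K := fun n =>
    hK.ball_subset hb (hK.smul_mem n n.cast_nonneg k0 hk0) hs0pos
  have hint : ∀ n : ℕ, (n : ℝ) • k0 + s0 • a ∈ interior K := fun n =>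
    mem_interior_of_ball (mul_pos hs0pos hr) (hball n)
  let z : ℕ → E2 := fun n => (Psi ha ((n : ℝ) • k0 + s0 • a)).1
  let G : ℕ → ℝ := fun n => (Psi ha ((n : ℝ) • k0 + s0 • a)).2
  have hGpos : ∀ n, 0 < G n := fun n => Psi_pos ha (hint n)
  have hspec : ∀ n, G n • f (z n) = (n : ℝ) • k0 + s0 • a := fun n => Psi_spec ha (hint n)
  have hG : ∀ n, G n ≤ 1 / 2 := by
    intro n
    have h1 : ⟪η, G n • f (z n)⟫ = c / 2 := by
      rw [hspec, inner_add_right, inner_smul_right, inner_smul_right, hηk, ← hAd, hs0]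
      field_simp
      ring
    rw [inner_smul_right] at h1
    have h2 := mul_le_mul_of_nonneg_left (hlow (z n)) (hGpos n).le
    rw [h1] at h2
    by_contra h3
    push Not at h3
    nlinarith
  have hfz : ∀ n, f (z n) = (G n)⁻¹ • ((n : ℝ) • k0 + s0 • a) := by
    intro n
    rw [← hspec, smul_smul, inv_mul_cancel₀ (hGpos n).ne', one_smul]
  have hinv : ∀ n, 2 ≤ (G n)⁻¹ := by
    intro n
    rw [le_inv_comm₀ (by norm_num) (hGpos n)]
    have := hG n
    norm_num at this ⊢
    exact this
  have hnorm : Tendsto (fun n => ‖f (z n)‖) atTop atTop := by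
    have h1 : Tendsto (fun n : ℕ => (n : ℝ) * ‖k0‖ - s0 * ‖a‖) atTop atTop := by
      apply tendsto_atTop_add_const_right
      exact tendsto_natCast_atTop_atTop.atTop_mul_const (norm_pos_iff.2 hk0')
    refine tendsto_atTop_mono ?_ h1
    intro n
    rw [hfz, norm_smul, norm_inv, Real.norm_of_nonneg (hGpos n).le]
    have h2 : (n : ℝ) * ‖k0‖ - s0 * ‖a‖ ≤ ‖(n : ℝ) • k0 + s0 • a‖ := by
      have h3 := norm_sub_norm_le ((n : ℝ) • k0) (-(s0 • a))
      rw [norm_smul, norm_neg, norm_smul, Real.norm_of_nonneg n.cast_nonneg,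
        Real.norm_of_nonneg hs0pos.le, sub_neg_eq_add] at h3
      exact h3
    have h4 := hinv n
    have h5 := norm_nonneg ((n : ℝ) • k0 + s0 • a)
    nlinarith
  have hz : Tendsto z atTop (cocompact E2) := tendsto_of_norm ha.isClosedEmbedding.continuous hnorm
  have hlim := ha.tendsto.comp hz
  have hbd : ∀ n, 2 * (s0 * r) ≤ infDist (f (z n)) (frontier K) := by
    intro n
    rw [Metric.le_infDist ⟨0, hK.zero_mem_frontier⟩]
    intro y hy
    by_contra hlt
    push Not at hlt
    have hyb : G n • y ∈ ball ((n : ℝ) • k0 + s0 • a) (s0 * r) := by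
      rw [mem_ball, dist_comm, dist_eq_norm, ← hspec, ← smul_sub, norm_smul,
        Real.norm_of_nonneg (hGpos n).le, ← dist_eq_norm]
      have h1 := hG n
      have h2 := hGpos n
      have h3 : 0 ≤ dist (f (z n)) y := dist_nonneg
      nlinarith
    have h1 : G n • y ∈ interior K :=
      (interior_maximal (hball n) isOpen_ball) hyb
    have h2 : y ∈ interior K := by
      rw [mem_interior_iff_mem_nhds, Metric.mem_nhds_iff] at h1
      obtain ⟨ε, hε, hbε⟩ := h1
      have h3 := hK.ball_subset hbε hK.zero_mem (inv_pos.2 (hGpos n))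
      rw [zero_add, smul_smul, inv_mul_cancel₀ (hGpos n).ne', one_smul] at h3
      exact mem_interior_of_ball (mul_pos (inv_pos.2 (hGpos n)) hε) h3
    rw [hK.isClosed.frontier_eq] at hy
    exact hy.2 h2
  have h6 := ge_of_tendsto' hlim hbd
  have h7 : 0 < s0 * r := mul_pos hs0pos hr
  linarith

theorem tendsto_norm_conormal (hs : Sph f k) (hK : IsRegularCone K) (ha : IsAsymptoticTo f K) :
    Tendsto (fun x => ‖conormal f x‖) (cocompact E2) atTop := by
  rw [← Metric.cobounded_eq_cocompact, ← comap_norm_atTop]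
  by_contra hcon
  rw [Filter.tendsto_atTop] at hcon
  push Not at hcon
  obtain ⟨R, hR⟩ := hcon
  have hR' : ∀ n : ℕ, ∃ x : E2, (n : ℝ) ≤ ‖x‖ ∧ ‖conormal f x‖ < R := by
    intro n
    by_contra hno
    push Not at hno
    apply hR
    have : ∀ᶠ x in comap norm atTop, (n : ℝ) ≤ ‖(x : E2)‖ :=
      tendsto_comap.eventually (eventually_ge_atTop (n : ℝ))
    filter_upwards [this] with x hx
    exact not_lt.2 (hno x hx)
  choose x hx1 hx2 using hR'
  obtain ⟨η, -, φ, hφ, hlim⟩ := tendsto_subseq_of_bounded (x := fun n => conormal f (x n))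
    (isBounded_closedBall (x := (0 : E3)) (r := R))
    (fun n => by rw [mem_closedBall_zero_iff]; exact (hx2 n).le)
  have hlow : ∀ z, 1 ≤ ⟪η, f z⟫ := by
    intro z
    refine ge_of_tendsto' (hlim.inner tendsto_const_nhds) ?_
    intro n
    exact support_le hs hK ha _ z
  have hnn : ∀ y ∈ K, 0 ≤ ⟪η, y⟫ := by
    intro y hy
    refine ge_of_tendsto' (hlim.inner tendsto_const_nhds) ?_
    intro n
    exact conormal_nonneg hs hK ha _ hy
  by_cases hex : ∃ k0 ∈ K, k0 ≠ 0 ∧ ⟪η, k0⟫ = 0
  · obtain ⟨k0, hk0, hk0', hz⟩ := hex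
    exact no_lower_bound hK ha hk0 hk0' hz one_pos hlow
  · push Not at hex
    obtain ⟨δ, hδ, hd⟩ := exists_delta hK (η := η)
      (fun y hy h0 => lt_of_le_of_ne (hnn y hy) (hex y hy h0).symm)
    have hxinf : Tendsto (fun n => x (φ n)) atTop (cocompact E2) := by
      rw [← Metric.cobounded_eq_cocompact, ← comap_norm_atTop, tendsto_comap_iff]
      refine tendsto_atTop_mono (fun n => ?_) (tendsto_natCast_atTop_atTop (R := ℝ))
      exact le_trans (by exact_mod_cast hφ.le_apply) (hx1 (φ n))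
    have hfinf : Tendsto (fun n => ‖f (x (φ n))‖) atTop atTop :=
      (tendsto_norm_cocompact_atTop).comp
        (ha.isClosedEmbedding.tendsto_cocompact.comp hxinf)
    have hclose : ∀ᶠ n in atTop, ‖conormal f (x (φ n)) - η‖ < δ / 2 := by
      have := (tendsto_iff_norm_sub_tendsto_zero.1 hlim)
      exact this.eventually_lt_const (by linarith)
    obtain ⟨n, h1, h2⟩ := (hclose.and (hfinf.eventually_gt_atTop (2 / δ))).exists
    have h3 := hs.inner_self (x (φ n))
    have h4 : |⟪conormal f (x (φ n)) - η, f (x (φ n))⟫| ≤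
        ‖conormal f (x (φ n)) - η‖ * ‖f (x (φ n))‖ := abs_real_inner_le_norm _ _
    have h5 := hd _ (interior_subset (ha.mem_interior (x (φ n))))
    have h6 : ⟪conormal f (x (φ n)), f (x (φ n))⟫ =
        ⟪η, f (x (φ n))⟫ + ⟪conormal f (x (φ n)) - η, f (x (φ n))⟫ := by
      rw [inner_sub_left]
      ring
    have h7 := neg_abs_le ⟪conormal f (x (φ n)) - η, f (x (φ n))⟫
    have h8 : 0 < ‖f (x (φ n))‖ := lt_trans (by positivity) h2
    have h9 : ‖conormal f (x (φ n)) - η‖ * ‖f (x (φ n))‖ ≤ δ / 2 * ‖f (x (φ n))‖ := by gcongr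
    rw [div_lt_iff₀ hδ] at h2
    linarith

theorem exists_mem_frontier {C : Set E3} (hC : IsClosed C) {a : E3} {r : ℝ} (haC : a ∈ C)
    {y : E3} (hy : y ∈ ball a r) (hyC : y ∉ C) : ∃ w ∈ frontier C, dist a w < r := by
  by_contra hno
  push Not at hno
  have hr : 0 < r := pos_of_mem_ball hy
  have hpre : IsPreconnected (ball a r) := (convex_ball a r).isPreconnected
  have hsub : ball a r ⊆ interior C ∪ Cᶜ := by
    intro w hw
    by_cases hwC : w ∈ C
    · left
      by_contra hwi
      have h1 : w ∈ frontier C := by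
        rw [hC.frontier_eq]
        exact ⟨hwC, hwi⟩
      have h2 := hno w h1
      rw [mem_ball, dist_comm] at hw
      linarith
    · right
      exact hwC
  have h1 : (ball a r ∩ interior C).Nonempty := by
    refine ⟨a, mem_ball_self hr, ?_⟩
    rcases hsub (mem_ball_self hr) with h | h
    · exact h
    · exact absurd haC h
  obtain ⟨w, -, hw1, hw2⟩ := hpre _ _ isOpen_interior hC.isOpen_compl hsub h1 ⟨y, hy, hyC⟩
  exact hw2 (interior_subset hw1)

theorem isClosed_dualCone (K : Set E3) : IsClosed (dualCone K) := by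
  have : dualCone K = ⋂ x ∈ K, {y : E3 | 0 ≤ ⟪y, x⟫} := by
    ext y
    simp [dualCone]
  rw [this]
  exact isClosed_biInter fun x _ => isClosed_le continuous_const (by fun_prop)

/-- Multiples of the conormal map are asymptotic to the dual cone. -/
theorem dual_asymptotic (hs : Sph f k) (hK : IsRegularCone K) (ha : IsAsymptoticTo f K) {a : ℝ}
    (hapos : 0 < a) : IsAsymptoticTo (fun x => a • conormal f x) (dualCone K) := by
  have hcont : Continuous (fun x => a • conormal f x) :=
    hs.contDiff_conormal.continuous.const_smul a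
  have hinj : Function.Injective (fun x => a • conormal f x) := by
    intro x y hxy
    by_contra hne
    have h1 : conormal f x = conormal f y := smul_right_injective _ hapos.ne' hxy
    have h2 := support_lt hs hK ha hne
    rw [h1, hs.inner_self] at h2
    exact lt_irrefl _ h2
  have hnorm : Tendsto (fun x => ‖a • conormal f x‖) (cocompact E2) atTop := by
    have := (tendsto_norm_conormal hs hK ha).const_mul_atTop hapos
    refine this.congr fun x => ?_
    rw [norm_smul, Real.norm_of_nonneg hapos.le]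
  have hprop : Tendsto (fun x => a • conormal f x) (cocompact E2) (cocompact E3) := by
    rw [← Metric.cobounded_eq_cocompact (α := E3), ← comap_norm_atTop, tendsto_comap_iff]
    exact hnorm
  have hint : ∀ x, a • conormal f x ∈ interior (dualCone K) := by
    intro x
    apply mem_interior_dualCone hK
    intro y hy h0
    rw [real_inner_smul_left]
    exact mul_pos hapos (conormal_pos hs hK ha x hy h0)
  refine ⟨?_, hint, ?_, ?_⟩
  · exact .of_continuous_injective_isClosedMap hcont hinj
      (isProperMap_iff_tendsto_cocompact.2 ⟨hcont, hprop⟩).isClosedMap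
  · intro η hη
    have hηpos := pos_of_mem_interior_dualCone hη
    obtain ⟨δ, hδ, hd⟩ := exists_delta hK hηpos
    have hgc : Continuous (fun x => ⟪η, f x⟫) :=
      continuous_const.inner ha.isClosedEmbedding.continuous
    have hglim : Tendsto (fun x => ⟪η, f x⟫) (cocompact E2) atTop := by
      have h1 : Tendsto (fun x => δ * ‖f x‖) (cocompact E2) atTop :=
        (tendsto_norm_cocompact_atTop.comp
          ha.isClosedEmbedding.tendsto_cocompact).const_mul_atTop hδ
      exact tendsto_atTop_mono (fun x => hd _ (interior_subset (ha.mem_interior x))) h1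
    obtain ⟨x0, hx0⟩ := hgc.exists_forall_le hglim
    have hmin : IsLocalMin (fun x => ⟪η, f x⟫) x0 := Filter.Eventually.of_forall hx0
    have hfd := hmin.fderiv_eq_zero
    have htan : ∀ v, ⟪η, fderiv ℝ f x0 v⟫ = 0 := by
      intro v
      have h1 : HasFDerivAt (fun x => ⟪η, f x⟫) _ x0 :=
        (hasFDerivAt_const η x0).inner ℝ (hs.differentiable x0).hasFDerivAt
      rw [h1.fderiv] at hfd
      have h2 := congrArg (fun L => L v) hfd
      simpa [fderivInnerCLM_apply] using h2
    have hf0 : f x0 ≠ 0 := hs.f_ne_zero x0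
    have hcpos : 0 < ⟪η, f x0⟫ := hηpos _ (interior_subset (ha.mem_interior x0)) hf0
    have hηeq : η = ⟪η, f x0⟫ • conormal f x0 := by
      apply ext_inner_right ℝ
      intro y
      obtain ⟨⟨v, t⟩, hvt⟩ := (hs.bijective_dPhi x0 (one_ne_zero : (1 : ℝ) ≠ 0)).2 y
      rw [← hvt, dPhi_apply]
      simp only [one_smul, inner_add_right, inner_smul_right, real_inner_smul_left, htan,
        hs.inner_tan, hs.inner_self]
      ring
    refine ⟨x0, ⟨a * (⟪η, f x0⟫)⁻¹, mul_pos hapos (inv_pos.2 hcpos), ?_⟩, ?_⟩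
    · have h1 : conormal f x0 = (⟪η, f x0⟫)⁻¹ • η := by
        conv_rhs => rw [hηeq, real_inner_smul_left, hs.inner_self, mul_one]
        rw [smul_smul, inv_mul_cancel₀ hcpos.ne', one_smul]
      change a • conormal f x0 = _
      rw [h1, smul_smul]
    · rintro y ⟨t, ht, hy⟩
      by_contra hne
      have hy' : conormal f y = (a⁻¹ * t) • η := by
        have : a • conormal f y = t • η := hy
        rw [mul_smul, ← this, smul_smul, inv_mul_cancel₀ hapos.ne', one_smul]
      have hy'' : conormal f y = (a⁻¹ * t * ⟪η, f x0⟫) • conormal f x0 := by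
        rw [hy', mul_smul _ ⟪η, f x0⟫, ← hηeq]
      set ρ := a⁻¹ * t * ⟪η, f x0⟫ with hρ
      have h1 : 1 < ⟪conormal f y, f x0⟫ := support_lt hs hK ha hne
      have h2 : 1 < ⟪conormal f x0, f y⟫ := support_lt hs hK ha (Ne.symm hne)
      have h3 : ⟪conormal f y, f y⟫ = 1 := hs.inner_self y
      rw [hy'', real_inner_smul_left] at h1 h3
      rw [hs.inner_self, mul_one] at h1
      nlinarith
  · have hb : ∀ x, infDist (a • conormal f x) (frontier (dualCone K)) ≤ a * ‖f x‖⁻¹ := by
      intro x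
      by_contra hlt
      push Not at hlt
      have hfx : 0 < ‖f x‖ := norm_pos_iff.2 (hs.f_ne_zero x)
      obtain ⟨ρ, hρ1, hρ2⟩ := exists_between hlt
      have hρ0 : 0 < ρ := lt_of_le_of_lt (by positivity) hρ1
      set y := a • conormal f x - (ρ * ‖f x‖⁻¹) • f x with hy
      have hyball : y ∈ ball (a • conormal f x)
          (infDist (a • conormal f x) (frontier (dualCone K))) := by
        rw [mem_ball, dist_eq_norm, hy]
        have : a • conormal f x - (ρ * ‖f x‖⁻¹) • f x - a • conormal f x =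
          -((ρ * ‖f x‖⁻¹) • f x) := by abel
        rw [this, norm_neg, norm_smul, Real.norm_of_nonneg (by positivity), mul_assoc,
          inv_mul_cancel₀ hfx.ne', mul_one]
        exact hρ2
      have hynot : y ∉ dualCone K := by
        intro hmem
        have h1 := hmem (f x) (interior_subset (ha.mem_interior x))
        rw [hy, inner_sub_left, real_inner_smul_left, real_inner_smul_left, hs.inner_self,
          real_inner_self_eq_norm_sq] at h1
        have h2 : ρ * ‖f x‖⁻¹ * ‖f x‖ ^ 2 = ρ * ‖f x‖ := by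
          field_simp
        rw [h2] at h1
        have h3 : a < ρ * ‖f x‖ := by
          rwa [← div_eq_mul_inv, div_lt_iff₀ hfx] at hρ1
        linarith
      obtain ⟨w, hw1, hw2⟩ := exists_mem_frontier (isClosed_dualCone K)
        (interior_subset (hint x)) hyball hynot
      exact absurd (infDist_le_dist_of_mem hw1) (not_le.2 hw2)
    have hlim : Tendsto (fun x => a * ‖f x‖⁻¹) (cocompact E2) (𝓝 0) := by
      have h1 : Tendsto (fun x => ‖f x‖⁻¹) (cocompact E2) (𝓝 0) :=
        (tendsto_norm_cocompact_atTop.comp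
          ha.isClosedEmbedding.tendsto_cocompact).inv_tendsto_atTop
      simpa using h1.const_mul a
    exact squeeze_zero (fun x => infDist_nonneg) hb hlim

end Pool.Agent.Hhelper67.Aff
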