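import Mathlib
import Pool.Agent.Hhelper67.Aff.Dual

/-!
# A regular cone without 2-dimensional faces whose dual has dense 2-dimensional faces
-/

set_option autoImplicit false

open Set Filter Topology Metric
open scoped ContDiff RealInnerProductSpace

namespace Pool.Agent.Hhelper67.Aff

/-- The vector of `ℝ³` with given projection and last coordinate. -/
noncomputable def vec (p : E2) (s : ℝ) : E3 := !₂[p 0, p 1, s]

/-- The projection to the first two coordinates. -/
noncomputable def pr (y : E3) : E2 := !₂[y 0, y 1]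

/-- Rotation by a right angle. -/
noncomputable def rot (p : E2) : E2 := !₂[-p 1, p 0]

@[simp] theorem pr_vec (p : E2) (s : ℝ) : pr (vec p s) = p := by
  ext i; fin_cases i <;> simp [pr, vec]

@[simp] theorem vec_two (p : E2) (s : ℝ) : vec p s 2 = s := by simp [vec]

theorem vec_pr (y : E3) : vec (pr y) (y 2) = y := by
  ext i; fin_cases i <;> simp [pr, vec]

theorem pr_add (y z : E3) : pr (y + z) = pr y + pr z := by
  ext i; fin_cases i <;> simp [pr]

theorem pr_smul (t : ℝ) (y : E3) : pr (t • y) = t • pr y := by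
  ext i; fin_cases i <;> simp [pr]

theorem pr_neg (y : E3) : pr (-y) = -pr y := by
  ext i; fin_cases i <;> simp [pr]

theorem continuous_pr : Continuous pr := by
  unfold pr
  fun_prop

theorem continuous_vec : Continuous (fun q : E2 × ℝ => vec q.1 q.2) := by
  unfold vec
  fun_prop

theorem continuous_rot : Continuous rot := by
  unfold rot
  fun_prop

theorem rot_rot (p : E2) : rot (rot p) = -p := by
  ext i; fin_cases i <;> simp [rot]

theorem rot_neg (p : E2) : rot (-p) = -rot p := by
  ext i; fin_cases i <;> simp [rot]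

theorem rot_zero : rot 0 = 0 := by
  ext i; fin_cases i <;> simp [rot]

theorem inner_rot (p : E2) : ⟪p, rot p⟫ = 0 := by
  simp only [rot, PiLp.inner_apply, Fin.sum_univ_two, RCLike.inner_apply, conj_trivial]
  simp
  ring

theorem inner_vec (p q : E2) (s t : ℝ) : ⟪vec p s, vec q t⟫ = ⟪p, q⟫ + s * t := by
  simp only [vec, PiLp.inner_apply, Fin.sum_univ_two, Fin.sum_univ_three, RCLike.inner_apply,
    conj_trivial]
  simp
  ring

/-- A dense sequence of the plane. -/
noncomputable def dd (n : ℕ) : E2 := TopologicalSpace.denseSeq E2 n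

/-- The weights. -/
noncomputable def cc (n : ℕ) : ℝ := (1 / 2) ^ n / (1 + ‖dd n‖)

/-- A norm of the plane. -/
noncomputable def NN (p : E2) : ℝ := ∑' n, cc n * |⟪dd n, p⟫|

theorem cc_pos (n : ℕ) : 0 < cc n := by
  unfold cc
  positivity

theorem cc_mul_le (n : ℕ) : cc n * ‖dd n‖ ≤ (1 / 2) ^ n := by
  unfold cc
  rw [div_mul_eq_mul_div, div_le_iff₀ (by positivity)]
  have : (0 : ℝ) < (1 / 2) ^ n := by positivity
  nlinarith [norm_nonneg (dd n)]

theorem term_le (n : ℕ) (p : E2) : cc n * |⟪dd n, p⟫| ≤ (1 / 2) ^ n * ‖p‖ := by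
  have h1 : |⟪dd n, p⟫| ≤ ‖dd n‖ * ‖p‖ := abs_real_inner_le_norm _ _
  calc cc n * |⟪dd n, p⟫| ≤ cc n * (‖dd n‖ * ‖p‖) :=
        mul_le_mul_of_nonneg_left h1 (cc_pos n).le
    _ = (cc n * ‖dd n‖) * ‖p‖ := by ring
    _ ≤ (1 / 2) ^ n * ‖p‖ := mul_le_mul_of_nonneg_right (cc_mul_le n) (norm_nonneg _)

theorem term_nonneg (n : ℕ) (p : E2) : 0 ≤ cc n * |⟪dd n, p⟫| :=
  mul_nonneg (cc_pos n).le (abs_nonneg _)

theorem summable_NN (p : E2) : Summable (fun n => cc n * |⟪dd n, p⟫|) :=
  Summable.of_nonneg_of_le (fun n => term_nonneg n p) (fun n => term_le n p)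
    (summable_geometric_two.mul_right _)

theorem NN_nonneg (p : E2) : 0 ≤ NN p := tsum_nonneg fun n => term_nonneg n p

theorem NN_le (p : E2) : NN p ≤ 2 * ‖p‖ := by
  have h := (summable_NN p).tsum_le_tsum (fun n => term_le n p)
    (summable_geometric_two.mul_right _)
  rw [tsum_mul_right, tsum_geometric_two] at h
  exact h

theorem NN_smul (t : ℝ) (p : E2) : NN (t • p) = |t| * NN p := by
  unfold NN
  rw [← tsum_mul_left]
  congr 1
  ext n
  rw [inner_smul_right, abs_mul]
  ring

theorem NN_neg (p : E2) : NN (-p) = NN p := by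
  have := NN_smul (-1) p
  simpa using this

theorem NN_add_le (p q : E2) : NN (p + q) ≤ NN p + NN q := by
  unfold NN
  rw [← (summable_NN p).tsum_add (summable_NN q)]
  refine (summable_NN (p + q)).tsum_le_tsum (fun n => ?_) ((summable_NN p).add (summable_NN q))
  rw [inner_add_right, ← mul_add]
  exact mul_le_mul_of_nonneg_left (abs_add_le _ _) (cc_pos n).le

theorem NN_add_lt {p q : E2} {n : ℕ} (hp : 0 < ⟪dd n, p⟫) (hq : ⟪dd n, q⟫ < 0) :
    NN (p + q) < NN p + NN q := by
  unfold NN
  rw [← (summable_NN p).tsum_add (summable_NN q)]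
  refine (summable_NN (p + q)).tsum_lt_tsum (i := n) (fun m => ?_) ?_
    ((summable_NN p).add (summable_NN q))
  · rw [inner_add_right, ← mul_add]
    exact mul_le_mul_of_nonneg_left (abs_add_le _ _) (cc_pos m).le
  · rw [inner_add_right, ← mul_add]
    refine mul_lt_mul_of_pos_left ?_ (cc_pos n)
    rw [abs_of_pos hp, abs_of_neg hq, abs_lt]
    constructor <;> linarith

theorem NN_continuous : Continuous NN := by
  have h : ∀ p q : E2, |NN p - NN q| ≤ 2 * ‖p - q‖ := by
    intro p q
    have h1 := NN_add_le (p - q) q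
    have h2 := NN_add_le (q - p) p
    rw [sub_add_cancel] at h1 h2
    have h3 := NN_le (p - q)
    have h4 : NN (q - p) = NN (p - q) := by rw [← NN_neg, neg_sub]
    rw [abs_le]
    constructor <;> linarith
  have hl : LipschitzWith 2 NN := by
    refine LipschitzWith.of_dist_le_mul fun p q => ?_
    rw [Real.dist_eq, dist_eq_norm]
    exact h p q
  exact hl.continuous

theorem exists_dd_mem {U : Set E2} (hU : IsOpen U) (hne : U.Nonempty) : ∃ n, dd n ∈ U := by
  obtain ⟨x, hx, n, rfl⟩ := (TopologicalSpace.denseRange_denseSeq E2).inter_open_nonempty U hU hne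
  exact ⟨n, hx⟩

theorem NN_pos {p : E2} (hp : p ≠ 0) : 0 < NN p := by
  obtain ⟨n, hn⟩ := exists_dd_mem (U := {x : E2 | 0 < ⟪x, p⟫})
    (isOpen_lt continuous_const (by fun_prop)) ⟨p, by
      change 0 < ⟪p, p⟫
      exact real_inner_self_pos.2 hp⟩
  have h1 : 0 < cc n * |⟪dd n, p⟫| := mul_pos (cc_pos n) (abs_pos.2 (ne_of_gt hn))
  exact (summable_NN p).tsum_pos (fun m => term_nonneg m p) n h1

/-- The example cone. -/
def coneK : Set E3 := {y | NN (pr y) ≤ y 2}

theorem isOpen_strict : IsOpen {y : E3 | NN (pr y) < y 2} :=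
  isOpen_lt (NN_continuous.comp continuous_pr) (by fun_prop)

theorem mem_interior_coneK {y : E3} (hy : NN (pr y) < y 2) : y ∈ interior coneK := by
  have hsub : {y : E3 | NN (pr y) < y 2} ⊆ coneK := by
    intro z hz
    change NN (pr z) ≤ z 2
    have hz' : NN (pr z) < z 2 := hz
    exact hz'.le
  exact (interior_maximal hsub isOpen_strict) hy

theorem pr_zero_snd {y : E3} (h1 : pr y = 0) (h2 : y 2 = 0) : y = 0 := by
  rw [← vec_pr y, h1, h2]
  ext i; fin_cases i <;> simp [vec]

theorem isRegularCone_coneK : IsRegularCone coneK where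
  isClosed := isClosed_le (NN_continuous.comp continuous_pr) (by fun_prop)
  convex := by
    intro x hx y hy a b ha hb hab
    change NN (pr (a • x + b • y)) ≤ (a • x + b • y : E3) 2
    have hx' : NN (pr x) ≤ x 2 := hx
    have hy' : NN (pr y) ≤ y 2 := hy
    rw [pr_add, pr_smul, pr_smul]
    have h1 := NN_add_le (a • pr x) (b • pr y)
    rw [NN_smul, NN_smul, abs_of_nonneg ha, abs_of_nonneg hb] at h1
    simp only [PiLp.add_apply, PiLp.smul_apply, smul_eq_mul]
    nlinarith
  smul_mem := by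
    intro t ht x hx
    change NN (pr (t • x)) ≤ (t • x : E3) 2
    have hx' : NN (pr x) ≤ x 2 := hx
    rw [pr_smul, NN_smul, abs_of_nonneg ht]
    simp only [PiLp.smul_apply, smul_eq_mul]
    exact mul_le_mul_of_nonneg_left hx' ht
  interior_nonempty := ⟨vec 0 1, mem_interior_coneK (by
    rw [pr_vec, vec_two]
    have := NN_smul 0 0
    rw [zero_smul, abs_zero, zero_mul] at this
    rw [this]
    exact one_pos)⟩
  pointed := by
    intro x hx hnx
    have hx' : NN (pr x) ≤ x 2 := hx
    have hnx' : NN (pr (-x)) ≤ (-x) 2 := hnx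
    rw [pr_neg, NN_neg, PiLp.neg_apply] at hnx'
    have h1 := NN_nonneg (pr x)
    have h2 : pr x = 0 := by
      by_contra h
      have := NN_pos h
      linarith
    exact pr_zero_snd h2 (by linarith)

theorem inner_vec_right (y : E3) (q : E2) (t : ℝ) : ⟪y, vec q t⟫ = ⟪pr y, q⟫ + y 2 * t := by
  conv_lhs => rw [← vec_pr y]
  rw [inner_vec]

/-- A nonnegative functional vanishing at an interior point vanishes. -/
theorem eq_zero_of_interior {K : Set E3} {y a : E3} (hy : y ∈ dualCone K) (ha : a ∈ interior K)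
    (h : ⟪y, a⟫ = 0) : y = 0 := by
  by_contra h0
  rw [mem_interior_iff_mem_nhds, Metric.mem_nhds_iff] at ha
  obtain ⟨r, hr, hb⟩ := ha
  have hn : 0 < ‖y‖ := norm_pos_iff.2 h0
  have h1 : a - (r / (2 * ‖y‖)) • y ∈ K := by
    apply hb
    rw [mem_ball, dist_eq_norm]
    have : a - (r / (2 * ‖y‖)) • y - a = -((r / (2 * ‖y‖)) • y) := by abel
    rw [this, norm_neg, norm_smul, Real.norm_of_nonneg (by positivity)]
    field_simp
    linarith
  have h2 := hy _ h1
  rw [inner_sub_right, h, inner_smul_right, real_inner_self_eq_norm_sq] at h2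
  have h3 : 0 < r / (2 * ‖y‖) * ‖y‖ ^ 2 := by positivity
  linarith

theorem isRegularCone_dual : IsRegularCone (dualCone coneK) where
  isClosed := isClosed_dualCone _
  convex := by
    intro x hx y hy a b ha hb _ z hz
    rw [inner_add_left, real_inner_smul_left, real_inner_smul_left]
    exact add_nonneg (mul_nonneg ha (hx z hz)) (mul_nonneg hb (hy z hz))
  smul_mem := by
    intro t ht x hx z hz
    rw [real_inner_smul_left]
    exact mul_nonneg ht (hx z hz)
  interior_nonempty := ⟨vec 0 1, mem_interior_dualCone isRegularCone_coneK (by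
    intro x hx h0
    have hx' : NN (pr x) ≤ x 2 := hx
    rw [real_inner_comm, inner_vec_right, inner_zero_right, zero_add, mul_one]
    have h1 := NN_nonneg (pr x)
    by_contra hle
    have h2 : pr x = 0 := by
      by_contra h
      have := NN_pos h
      linarith
    exact h0 (pr_zero_snd h2 (by linarith)))⟩
  pointed := by
    intro x hx hnx
    obtain ⟨a, ha⟩ := isRegularCone_coneK.interior_nonempty
    refine eq_zero_of_interior hx ha (le_antisymm ?_ (hx a (interior_subset ha)))
    have := hnx a (interior_subset ha)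
    rw [inner_neg_left] at this
    linarith

/-- A face containing an interior point spans the space. -/
theorem span_eq_top_of_interior {K F : Set E3} (hF : IsFace K F) {m : E3} (hm : m ∈ F)
    (hi : m ∈ interior K) : Submodule.span ℝ F = ⊤ := by
  rw [mem_interior_iff_mem_nhds, Metric.mem_nhds_iff] at hi
  obtain ⟨r, hr, hb⟩ := hi
  have hsub : ball m r ⊆ F := by
    intro x hx
    have h1 : (2 : ℝ) • m - x ∈ ball m r := by
      rw [mem_ball, dist_eq_norm] at hx ⊢
      have : (2 : ℝ) • m - x - m = -(x - m) := by module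
      rw [this, norm_neg]
      exact hx
    refine (hF.extreme x (hb hx) ((2 : ℝ) • m - x) (hb h1) ?_).1
    have : (1 / 2 : ℝ) • (x + ((2 : ℝ) • m - x)) = m := by module
    rw [this]
    exact hm
  apply Submodule.eq_top_of_nonempty_interior'
  exact ⟨m, mem_interior_iff_mem_nhds.2 (Filter.mem_of_superset (ball_mem_nhds m hr)
    (hsub.trans Submodule.subset_span))⟩

theorem exists_independent {F : Set E3} (hF : Module.finrank ℝ (Submodule.span ℝ F) = 2) :
    ∃ u ∈ F, u ≠ 0 ∧ ∃ v ∈ F, ∀ t : ℝ, v ≠ t • u := by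
  by_contra hno
  push Not at hno
  by_cases hz : ∀ u ∈ F, u = 0
  · have h1 : Submodule.span ℝ F = ⊥ := by
      rw [Submodule.span_eq_bot]
      exact hz
    rw [h1, finrank_bot] at hF
    exact absurd hF (by norm_num)
  · push Not at hz
    obtain ⟨u, hu, hu0⟩ := hz
    have h1 : Submodule.span ℝ F ≤ Submodule.span ℝ {u} := by
      rw [Submodule.span_le]
      intro v hv
      obtain ⟨t, ht⟩ := hno u hu hu0 v hv
      rw [ht]
      exact Submodule.smul_mem _ _ (Submodule.mem_span_singleton_self u)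
    have h2 := Submodule.finrank_mono h1
    rw [hF, finrank_span_singleton hu0] at h2
    omega

/-- Strict subadditivity. -/
theorem NN_strict {p q : E2} (hp : p ≠ 0) (hq : ∀ t : ℝ, 0 ≤ t → q ≠ t • p) :
    NN (p + q) < NN p + NN q := by
  have hpn : 0 < ⟪p, p⟫ := real_inner_self_pos.2 hp
  -- find a vector positive on `p` and negative on `q`
  obtain ⟨x, hx1, hx2⟩ : ∃ x : E2, 0 < ⟪x, p⟫ ∧ ⟪x, q⟫ < 0 := by
    set t := ⟪p, q⟫ / ⟪p, p⟫ with ht
    set r := q - t • p with hr
    have hrp : ⟪p, r⟫ = 0 := by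
      rw [hr, inner_sub_right, inner_smul_right, ht, div_mul_cancel₀ _ hpn.ne', sub_self]
    have hpq : ⟪p, q⟫ = t * ⟪p, p⟫ := by rw [ht, div_mul_cancel₀ _ hpn.ne']
    have hrq : ⟪r, q⟫ = ⟪r, r⟫ := by
      have : q = r + t • p := by rw [hr]; abel
      conv_lhs => rw [this]
      rw [inner_add_right, inner_smul_right, real_inner_comm p r, hrp, mul_zero, add_zero]
    by_cases ht0 : 0 ≤ t
    · have hr0 : r ≠ 0 := by
        intro h
        exact hq t ht0 (sub_eq_zero.1 h)
      have hrr : 0 < ⟪r, r⟫ := real_inner_self_pos.2 hr0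
      refine ⟨⟪r, r⟫ • p - (t * ⟪p, p⟫ + 1) • r, ?_, ?_⟩
      · rw [inner_sub_left, real_inner_smul_left, real_inner_smul_left, real_inner_comm p r, hrp,
          mul_zero, sub_zero]
        exact mul_pos hrr hpn
      · rw [inner_sub_left, real_inner_smul_left, real_inner_smul_left, hrq, hpq]
        nlinarith
    · push Not at ht0
      exact ⟨p, hpn, by rw [hpq]; exact mul_neg_of_neg_of_pos ht0 hpn⟩
  obtain ⟨n, hn1, hn2⟩ := exists_dd_mem (U := {x : E2 | 0 < ⟪x, p⟫} ∩ {x : E2 | ⟪x, q⟫ < 0})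
    ((isOpen_lt continuous_const (by fun_prop)).inter (isOpen_lt (by fun_prop) continuous_const))
    ⟨x, hx1, hx2⟩
  exact NN_add_lt hn1 hn2

theorem no_twoFace (F : Set E3) : ¬ IsTwoFace coneK F := by
  rintro ⟨hF, hrank⟩
  obtain ⟨u, hu, hu0, v, hv, hvu⟩ := exists_independent hrank
  have huK : NN (pr u) ≤ u 2 := hF.subset hu
  have hvK : NN (pr v) ≤ v 2 := hF.subset hv
  have hm : (1 / 2 : ℝ) • u + (1 / 2 : ℝ) • v ∈ F :=
    hF.convex hu hv (by norm_num) (by norm_num) (by norm_num)
  have hstrict : NN (pr u + pr v) < u 2 + v 2 := by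
    by_cases hp : pr u = 0
    · have h1 : 0 < u 2 := by
        rcases lt_or_eq_of_le (le_trans (NN_nonneg _) huK) with h | h
        · exact h
        · exact absurd (pr_zero_snd hp h.symm) hu0
      rw [hp, zero_add]
      linarith
    · by_cases hex : ∃ t : ℝ, 0 ≤ t ∧ pr v = t • pr u
      · obtain ⟨t, ht, hpv⟩ := hex
        have h1 : NN (pr u + pr v) = NN (pr u) + t * NN (pr u) := by
          have : pr u + pr v = (1 + t) • pr u := by rw [hpv, add_smul, one_smul]
          rw [this, NN_smul, abs_of_nonneg (by linarith)]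
          ring
        have h2 : t * NN (pr u) ≤ v 2 := by
          rw [hpv, NN_smul, abs_of_nonneg ht] at hvK
          exact hvK
        rw [h1]
        by_contra hle
        push Not at hle
        have h3 : u 2 = NN (pr u) := by linarith
        have h4 : v 2 = t * NN (pr u) := by linarith
        apply hvu t
        rw [← vec_pr v, ← vec_pr u, hpv, h4, h3]
        ext i; fin_cases i <;> simp [vec]
      · push Not at hex
        have := NN_strict hp hex
        linarith
  have hint : (1 / 2 : ℝ) • u + (1 / 2 : ℝ) • v ∈ interior coneK := by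
    apply mem_interior_coneK
    have h1 : pr ((1 / 2 : ℝ) • u + (1 / 2 : ℝ) • v) = (1 / 2 : ℝ) • (pr u + pr v) := by
      rw [pr_add, pr_smul, pr_smul, smul_add]
    rw [h1, NN_smul]
    simp only [PiLp.add_apply, PiLp.smul_apply, smul_eq_mul]
    rw [abs_of_pos (by norm_num : (0 : ℝ) < 1 / 2)]
    linarith
  have htop := span_eq_top_of_interior hF hm hint
  rw [htop, finrank_top] at hrank
  simp at hrank

theorem not_facesDense_coneK : ¬ FacesDense coneK := by
  intro h
  have h1 := h 0 isRegularCone_coneK.zero_mem_frontier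
  have h2 : {q : E3 | ∃ F : Set E3, IsTwoFace coneK F ∧ q ∈ F} = ∅ := by
    ext q
    simp only [mem_ofPred_eq, mem_empty_iff_false, iff_false, not_exists, not_and]
    intro F hF
    exact absurd hF (no_twoFace F)
  rw [h2, closure_empty] at h1
  exact h1

/-- The face of the dual cone cut out by `u`. -/
def faceOf (u : E3) : Set E3 := {y | y ∈ dualCone coneK ∧ ⟪y, u⟫ = 0}

theorem isFace_faceOf {u : E3} (hu : u ∈ coneK) : IsFace (dualCone coneK) (faceOf u) where
  subset := fun _ h => h.1
  convex := by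
    intro x hx y hy a b ha hb hab
    refine ⟨isRegularCone_dual.convex hx.1 hy.1 ha hb hab, ?_⟩
    rw [inner_add_left, real_inner_smul_left, real_inner_smul_left, hx.2, hy.2]
    ring
  extreme := by
    intro x hx y hy h
    have h1 := h.2
    rw [real_inner_smul_left, inner_add_left] at h1
    have h2 := hx u hu
    have h3 := hy u hu
    exact ⟨⟨hx, by linarith⟩, ⟨hy, by linarith⟩⟩

theorem finrank_faceOf {u y z : E3} (hu0 : u ≠ 0) (hy : y ∈ faceOf u)
    (hz : z ∈ faceOf u) (hy0 : y ≠ 0) (hzy : ∀ t : ℝ, z ≠ t • y) :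
    Module.finrank ℝ (Submodule.span ℝ (faceOf u)) = 2 := by
  apply le_antisymm
  · have h1 : Submodule.span ℝ (faceOf u) ≤ (ℝ ∙ u)ᗮ := by
      rw [Submodule.span_le]
      intro w hw
      rw [SetLike.mem_coe, Submodule.mem_orthogonal_singleton_iff_inner_left]
      exact hw.2
    have h2 := Submodule.finrank_mono h1
    have h3 := Submodule.finrank_add_finrank_orthogonal (ℝ ∙ u)
    rw [finrank_span_singleton hu0] at h3
    simp only [finrank_euclideanSpace, Fintype.card_fin] at h3
    omega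
  · have hli : LinearIndependent ℝ ![y, z] := by
      rw [LinearIndependent.pair_iff' hy0]
      intro t h
      exact hzy t h.symm
    have h1 : Submodule.span ℝ (Set.range ![y, z]) ≤ Submodule.span ℝ (faceOf u) := by
      apply Submodule.span_mono
      rintro w ⟨i, rfl⟩
      fin_cases i
      · exact hy
      · exact hz
    have h2 := Submodule.finrank_mono h1
    rw [finrank_span_eq_card hli] at h2
    simpa using h2

theorem isTwoFace_faceOf {u y z : E3} (hu : u ∈ coneK) (hu0 : u ≠ 0) (hy : y ∈ faceOf u)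
    (hz : z ∈ faceOf u) (hy0 : y ≠ 0) (hzy : ∀ t : ℝ, z ≠ t • y) :
    IsTwoFace (dualCone coneK) (faceOf u) :=
  ⟨isFace_faceOf hu, finrank_faceOf hu0 hy hz hy0 hzy⟩

/-- The linear functional attached to a choice of signs. -/
noncomputable def qq (s : ℕ → ℝ) : E2 := ∑' n, (cc n * s n) • dd n

theorem summable_qq {s : ℕ → ℝ} (hs : ∀ n, |s n| ≤ 1) :
    Summable (fun n => (cc n * s n) • dd n) := by
  refine Summable.of_norm_bounded summable_geometric_two (fun n => ?_)
  rw [norm_smul, Real.norm_eq_abs, abs_mul, abs_of_pos (cc_pos n)]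
  calc cc n * |s n| * ‖dd n‖ ≤ cc n * 1 * ‖dd n‖ := by
        gcongr
        · exact (cc_pos n).le
        · exact hs n
    _ = cc n * ‖dd n‖ := by ring
    _ ≤ _ := cc_mul_le n

theorem inner_qq {s : ℕ → ℝ} (hs : ∀ n, |s n| ≤ 1) (x : E2) :
    ⟪qq s, x⟫ = ∑' n, cc n * (s n * ⟪dd n, x⟫) := by
  unfold qq
  have h1 := (innerSL ℝ x).map_tsum (summable_qq hs)
  rw [innerSL_apply_apply] at h1
  rw [real_inner_comm, h1]
  congr 1
  ext n
  rw [innerSL_apply_apply, inner_smul_right, real_inner_comm]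
  ring

theorem inner_qq_le {s : ℕ → ℝ} (hs : ∀ n, |s n| ≤ 1) (x : E2) : ⟪qq s, x⟫ ≤ NN x := by
  rw [inner_qq hs]
  have hle : ∀ n, |cc n * (s n * ⟪dd n, x⟫)| ≤ cc n * |⟪dd n, x⟫| := by
    intro n
    rw [abs_mul, abs_mul, abs_of_pos (cc_pos n)]
    have := mul_le_mul_of_nonneg_right (hs n) (abs_nonneg ⟪dd n, x⟫)
    rw [one_mul] at this
    exact mul_le_mul_of_nonneg_left this (cc_pos n).le
  have hsum : Summable (fun n => cc n * (s n * ⟪dd n, x⟫)) :=
    Summable.of_norm_bounded (summable_NN x) (fun n => hle n)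
  exact hsum.tsum_le_tsum (fun n => le_trans (le_abs_self _) (hle n)) (summable_NN x)

theorem vec_mem_dual {s : ℕ → ℝ} (hs : ∀ n, |s n| ≤ 1) : vec (-qq s) 1 ∈ dualCone coneK := by
  intro x hx
  have hx' : NN (pr x) ≤ x 2 := hx
  rw [real_inner_comm, inner_vec_right, inner_neg_right, mul_one, real_inner_comm]
  have := inner_qq_le hs (pr x)
  linarith

theorem vec_mem_faceOf {s : ℕ → ℝ} (hs : ∀ n, |s n| ≤ 1) {p : E2}
    (hp : ∀ n, s n * ⟪dd n, p⟫ = |⟪dd n, p⟫|) : vec (-qq s) 1 ∈ faceOf (vec p (NN p)) := by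
  refine ⟨vec_mem_dual hs, ?_⟩
  rw [inner_vec, inner_neg_left, inner_qq hs]
  simp only [hp]
  unfold NN
  ring

theorem vec_one_ne_zero (p : E2) : vec p 1 ≠ 0 := by
  intro h
  have := congrArg (fun y : E3 => y 2) h
  simp at this

/-- Corner points give 2-dimensional faces of the dual cone. -/
theorem corner (n : ℕ) (hn : dd n ≠ 0) {p : E2} (hp : ⟪dd n, p⟫ = 0) (hp0 : p ≠ 0) :
    IsTwoFace (dualCone coneK) (faceOf (vec p (NN p))) ∧
      ∃ y ∈ faceOf (vec p (NN p)), y ≠ 0 := by
  let s : ℝ → ℕ → ℝ := fun τ m => if m = n then τ else SignType.sign ⟪dd m, p⟫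
  have hs : ∀ τ : ℝ, |τ| ≤ 1 → ∀ m, |s τ m| ≤ 1 := by
    intro τ hτ m
    by_cases hm : m = n
    · simp [s, hm, hτ]
    · simp only [s, hm, if_false]
      rcases lt_trichotomy ⟪dd m, p⟫ 0 with h | h | h
      · simp [h]
      · simp [h]
      · simp [h]
  have hsp : ∀ τ m, s τ m * ⟪dd m, p⟫ = |⟪dd m, p⟫| := by
    intro τ m
    by_cases hm : m = n
    · rw [hm, hp]
      simp
    · simp only [s, hm, if_false]
      exact sign_mul_self _
  have h1 := vec_mem_faceOf (hs 1 (by simp)) (hsp 1)
  have h0 := vec_mem_faceOf (hs 0 (by simp)) (hsp 0)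
  have hdiff : qq (s 1) - qq (s 0) = cc n • dd n := by
    unfold qq
    rw [← (summable_qq (hs 1 (by simp))).tsum_sub (summable_qq (hs 0 (by simp)))]
    rw [tsum_eq_single n]
    · simp [s]
    · intro m hm
      simp [s, hm]
  have hu : vec p (NN p) ∈ coneK := by
    change NN (pr (vec p (NN p))) ≤ (vec p (NN p)) 2
    rw [pr_vec, vec_two]
  have hu0 : vec p (NN p) ≠ 0 := by
    intro h
    apply hp0
    have := congrArg pr h
    rw [pr_vec] at this
    rw [this]
    ext i; fin_cases i <;> simp [pr]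
  refine ⟨isTwoFace_faceOf hu hu0 h1 h0 (vec_one_ne_zero _) ?_, _, h1, vec_one_ne_zero _⟩
  intro t ht
  have ht1 : t = 1 := by
    have := congrArg (fun y : E3 => y 2) ht
    simp at this
    exact this.symm
  rw [ht1, one_smul] at ht
  have h2 := congrArg pr ht
  rw [pr_vec, pr_vec, neg_inj] at h2
  rw [h2, sub_self] at hdiff
  rcases smul_eq_zero.1 hdiff.symm with h | h
  · exact (cc_pos n).ne' h
  · exact hn h

theorem exists_near {p : E2} (hp : p ≠ 0) {ε : ℝ} (hε : 0 < ε) :
    ∃ p' : E2, ‖p' - p‖ < ε ∧ IsTwoFace (dualCone coneK) (faceOf (vec p' (NN p'))) ∧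
      ∃ y ∈ faceOf (vec p' (NN p')), y ≠ 0 := by
  have hU : IsOpen {x : E2 | ‖-rot x - p‖ < ε ∧ x ≠ 0} := by
    apply IsOpen.inter
    · exact isOpen_lt ((continuous_rot.neg.sub continuous_const).norm) continuous_const
    · exact isOpen_ne
  obtain ⟨n, hn1, hn2⟩ := exists_dd_mem hU ⟨rot p, by
    rw [rot_rot, neg_neg, sub_self, norm_zero]
    exact hε, by
    intro h
    apply hp
    have := congrArg rot h
    rw [rot_rot, rot_zero, neg_eq_zero] at this
    exact this⟩
  refine ⟨-rot (dd n), hn1, corner n hn2 ?_ ?_⟩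
  · rw [inner_neg_right, inner_rot, neg_zero]
  · intro h
    apply hn2
    rw [neg_eq_zero] at h
    have := congrArg rot h
    rw [rot_rot, rot_zero, neg_eq_zero] at this
    exact this

theorem facesDense_dual : FacesDense (dualCone coneK) := by
  intro y hy
  by_cases hy0 : y = 0
  · obtain ⟨p, hp⟩ : ∃ p : E2, p ≠ 0 := exists_ne 0
    obtain ⟨p', -, hF, -⟩ := exists_near hp one_pos
    apply subset_closure
    refine ⟨_, hF, ?_⟩
    rw [hy0]
    exact ⟨isRegularCone_dual.zero_mem, inner_zero_left _⟩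
  have hyK : y ∈ dualCone coneK := (isClosed_dualCone _).frontier_subset hy
  obtain ⟨u, hu, hu0, hyu⟩ : ∃ u ∈ coneK, u ≠ 0 ∧ ⟪y, u⟫ = 0 := by
    by_contra hno
    push Not at hno
    have h1 : y ∈ interior (dualCone coneK) := mem_interior_dualCone isRegularCone_coneK
      (fun x hx h0 => lt_of_le_of_ne (hyK x hx) (hno x hx h0).symm)
    rw [(isClosed_dualCone _).frontier_eq] at hy
    exact hy.2 h1
  have huK : NN (pr u) ≤ u 2 := hu
  have hu2 : u 2 = NN (pr u) := by
    rcases lt_or_eq_of_le huK with h | h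
    · exact absurd (eq_zero_of_interior hyK (mem_interior_coneK h) hyu) hy0
    · exact h.symm
  have hpu : pr u ≠ 0 := by
    intro h
    apply hu0
    apply pr_zero_snd h
    rw [hu2, h]
    have := NN_smul 0 0
    rw [zero_smul, abs_zero, zero_mul] at this
    exact this
  have hyn : 0 < ‖y‖ := norm_pos_iff.2 hy0
  choose p hp1 hp2 w hw hw0 using fun k : ℕ =>
    exists_near hpu (ε := 1 / ((k : ℝ) + 1)) (by positivity)
  have hplim : Tendsto p atTop (𝓝 (pr u)) := by
    rw [tendsto_iff_norm_sub_tendsto_zero]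
    exact squeeze_zero (fun k => norm_nonneg _) (fun k => (hp1 k).le)
      tendsto_one_div_add_atTop_nhds_zero_nat
  have hulim : Tendsto (fun k => vec (p k) (NN (p k))) atTop (𝓝 u) := by
    have h1 : Tendsto (fun k => (p k, NN (p k))) atTop (𝓝 (pr u, NN (pr u))) :=
      hplim.prodMk_nhds ((NN_continuous.tendsto _).comp hplim)
    have h2 := (continuous_vec.tendsto (pr u, NN (pr u))).comp h1
    have h3 : vec (pr u) (NN (pr u)) = u := by rw [← hu2, vec_pr]
    rw [h3] at h2
    exact h2
  let z : ℕ → E3 := fun k => (‖y‖ * ‖w k‖⁻¹) • w k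
  have hz : ∀ k, z k ∈ faceOf (vec (p k) (NN (p k))) := by
    intro k
    refine ⟨isRegularCone_dual.smul_mem _ (by positivity) _ (hw k).1, ?_⟩
    rw [real_inner_smul_left, (hw k).2, mul_zero]
  have hzn : ∀ k, ‖z k‖ = ‖y‖ := by
    intro k
    have : 0 < ‖w k‖ := norm_pos_iff.2 (hw0 k)
    simp only [z]
    rw [norm_smul, Real.norm_of_nonneg (by positivity), mul_assoc, inv_mul_cancel₀ this.ne',
      mul_one]
  obtain ⟨y', -, φ, hφ, hlim⟩ := tendsto_subseq_of_bounded (x := z)
    (isBounded_closedBall (x := (0 : E3)) (r := ‖y‖))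
    (fun n => by rw [mem_closedBall_zero_iff]; exact (hzn n).le)
  have hy'K : y' ∈ dualCone coneK :=
    (isClosed_dualCone _).mem_of_tendsto hlim (Eventually.of_forall fun k => (hz (φ k)).1)
  have hy'n : ‖y'‖ = ‖y‖ := by
    have h1 : Tendsto (fun k => ‖z (φ k)‖) atTop (𝓝 ‖y'‖) := hlim.norm
    simp only [hzn] at h1
    exact (tendsto_nhds_unique h1 tendsto_const_nhds)
  have hy'u : ⟪y', u⟫ = 0 := by
    have h1 : Tendsto (fun k => ⟪z (φ k), vec (p (φ k)) (NN (p (φ k)))⟫) atTop (𝓝 ⟪y', u⟫) :=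
      hlim.inner (hulim.comp hφ.tendsto_atTop)
    have h2 : ∀ k, ⟪z (φ k), vec (p (φ k)) (NN (p (φ k)))⟫ = 0 := fun k => (hz (φ k)).2
    simp only [h2] at h1
    exact tendsto_nhds_unique h1 tendsto_const_nhds
  by_cases hdep : ∃ t : ℝ, y' = t • y
  · obtain ⟨t, ht⟩ := hdep
    have ht1 : |t| = 1 := by
      rw [ht, norm_smul, Real.norm_eq_abs] at hy'n
      have : |t| * ‖y‖ = 1 * ‖y‖ := by rw [hy'n, one_mul]
      exact mul_right_cancel₀ hyn.ne' this
    have hyy : y' = y := by
      rcases (abs_eq one_pos.le).1 ht1 with h | h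
      · rw [ht, h, one_smul]
      · exfalso
        apply hy0
        apply isRegularCone_dual.pointed y hyK
        rw [h, neg_smul, one_smul] at ht
        rw [← ht]
        exact hy'K
    rw [hyy] at hlim
    refine mem_closure_of_tendsto hlim (Eventually.of_forall fun k => ?_)
    exact ⟨_, hp2 (φ k), hz (φ k)⟩
  · push Not at hdep
    apply subset_closure
    exact ⟨faceOf u, isTwoFace_faceOf hu hu0 ⟨hyK, hyu⟩ ⟨hy'K, hy'u⟩ hy0 hdep, hyK, hyu⟩

/-- The two cones. -/
theorem exists_cones : ∃ K : Set E3, IsRegularCone K ∧ IsRegularCone (dualCone K) ∧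
    ¬ FacesDense K ∧ FacesDense (dualCone K) :=
  ⟨coneK, isRegularCone_coneK, isRegularCone_dual, not_facesDense_coneK, facesDense_dual⟩

end Pool.Agent.Hhelper67.Aff
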