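import Mathlib
import Pool.Agent.Hhelper67.Aff.Statement

/-!
# The definitions are not vacuous

The surface `f(u, v) = 3^{-1/2} (e^u, e^v, e^{-u-v})` is a complete hyperbolic affine sphere with
affine mean curvature `-1`, asymptotic to the boundary of the octant, and conformally equivalent
to `ℂ`.
-/

set_option autoImplicit false

open Set Filter Topology Metric
open scoped ContDiff RealInnerProductSpace

namespace Pool.Agent.Hhelper67.Aff

/-- The three exponents. -/
noncomputable def ell (i : Fin 3) : E2 →L[ℝ] ℝ :=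
  ![EuclideanSpace.proj 0, EuclideanSpace.proj 1,
    -(EuclideanSpace.proj 0 : E2 →L[ℝ] ℝ) - EuclideanSpace.proj 1] i

theorem ell_zero (x : E2) : ell 0 x = x 0 := rfl
theorem ell_one (x : E2) : ell 1 x = x 1 := rfl
theorem ell_two (x : E2) : ell 2 x = -x 0 - x 1 := rfl

/-- Exponential maps with coefficients. -/
noncomputable def expMap (a : Fin 3 → ℝ) (x : E2) : E3 :=
  WithLp.toLp 2 (fun i => a i * Real.exp (ell i x))

theorem expMap_apply (a : Fin 3 → ℝ) (x : E2) (i : Fin 3) :
    expMap a x i = a i * Real.exp (ell i x) := rfl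

theorem contDiff_expMap (a : Fin 3 → ℝ) : ContDiff ℝ ∞ (expMap a) := by
  rw [contDiff_euclidean]
  intro i
  have : (fun x => expMap a x i) = fun x => a i * Real.exp (ell i x) := rfl
  rw [this]
  fun_prop

theorem dv_expMap (a : Fin 3 → ℝ) (x v : E2) :
    dv (expMap a) x v = expMap (fun i => a i * ell i v) x := by
  ext i
  have h1 : HasFDerivAt (fun y => expMap a y i) _ x :=
    ((EuclideanSpace.proj i : E3 →L[ℝ] ℝ).hasFDerivAt.comp x
      ((contDiff_expMap a).differentiable (by simp) x).hasFDerivAt)
  have h2 : HasFDerivAt (fun y => expMap a y i)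
      (a i • (Real.exp (ell i x) • (ell i : E2 →L[ℝ] ℝ))) x := by
    have h3 : HasFDerivAt (fun y => Real.exp (ell i y)) (Real.exp (ell i x) • ell i) x :=
      (ell i).hasFDerivAt.exp
    exact h3.const_mul (a i)
  have h4 := congrArg (fun L : E2 →L[ℝ] ℝ => L v) (h1.unique h2)
  have h5 : (dv (expMap a) x v) i = a i * (Real.exp (ell i x) * ell i v) := h4
  rw [h5, expMap_apply]
  ring

/-- The constant metric. -/
noncomputable def flatForm : LinearMap.BilinForm ℝ E2 :=
  LinearMap.mk₂ ℝ (fun v w => (2 / 3) * (v 0 * w 0 + v 1 * w 1) + (1 / 3) * (v 0 * w 1 + v 1 * w 0))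
    (by intros; simp; ring) (by intros; simp; ring) (by intros; simp; ring)
    (by intros; simp; ring)

/-- The constant field. -/
noncomputable def flatField : FormField := fun _ => flatForm

theorem eval_flatField (x v w : E2) : flatField.eval x v w =
    (2 / 3) * (v 0 * w 0 + v 1 * w 1) + (1 / 3) * (v 0 * w 1 + v 1 * w 0) := rfl

/-- The surface. -/
noncomputable def tit : E2 → E3 := expMap (fun _ => (Real.sqrt 3)⁻¹)

theorem sqrt3_inv_pos : 0 < (Real.sqrt 3)⁻¹ := inv_pos.2 (Real.sqrt_pos.2 (by norm_num))

theorem ell_ext {v w : E2} (h : ∀ i, ell i v = ell i w) : v = w := by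
  ext i
  fin_cases i
  · exact h 0
  · exact h 1

theorem tit_isSphere : IsHyperbolicAffineSphere (-1) tit flatField := by
  refine ⟨by norm_num, contDiff_expMap _, ?_, ?_, ?_, ?_, ?_, ?_⟩
  · intro x v w hvw
    simp only [tit, dv_expMap] at hvw
    apply ell_ext
    intro i
    have := congrArg (fun y : E3 => y i) hvw
    simp only [expMap_apply] at this
    have h1 := mul_right_cancel₀ (Real.exp_pos (ell i x)).ne' this
    exact mul_left_cancel₀ sqrt3_inv_pos.ne' h1
  · intro x v w
    rw [eval_flatField, eval_flatField]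
    ring
  · intro x v hv
    rw [eval_flatField]
    have h1 : v 0 ≠ 0 ∨ v 1 ≠ 0 := by
      by_contra h
      push Not at h
      apply hv
      ext i
      fin_cases i
      · exact h.1
      · exact h.2
    rcases h1 with h | h
    · have := sq_pos_of_ne_zero h
      nlinarith [sq_nonneg (v 0 + 2 * v 1)]
    · have := sq_pos_of_ne_zero h
      nlinarith [sq_nonneg (2 * v 0 + v 1)]
  · intro x v w
    refine ⟨!₂[v 0 * w 0 - flatField.eval x v w, v 1 * w 1 - flatField.eval x v w], ?_⟩
    have h1 : (fun y => dv tit y w) = expMap (fun i => (Real.sqrt 3)⁻¹ * ell i w) := by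
      ext1 y
      exact dv_expMap _ _ _
    rw [h1, dv_expMap, tit, dv_expMap]
    ext i
    rw [eval_flatField]
    fin_cases i <;>
    simp [expMap_apply, ell_zero, ell_one, ell_two] <;> ring
  · intro x v
    refine ⟨v, ?_⟩
    have h1 : (fun x => (-(-1) : ℝ) • tit x) = tit := by
      ext1 x
      simp
    rw [h1]
  · intro x
    simp only [tit, dv_expMap, eval_flatField]
    unfold det3
    rw [Matrix.det_fin_three]
    simp only [Matrix.cons_val', Matrix.cons_val, Matrix.of_apply]
    simp only [neg_neg, one_smul, expMap_apply, ell_zero, ell_one, ell_two, e]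
    have hexp : Real.exp (-x 0 - x 1) = (Real.exp (x 0))⁻¹ * (Real.exp (x 1))⁻¹ := by
      rw [← Real.exp_neg, ← Real.exp_neg, ← Real.exp_add]
      ring_nf
    have h3 : (Real.sqrt 3) ^ 2 = 3 := Real.sq_sqrt (by norm_num)
    have h3' : (Real.sqrt 3)⁻¹ ^ 2 = 1 / 3 := by
      rw [inv_pow, h3]
      norm_num
    have e0 := Real.exp_pos (x 0)
    have e1 := Real.exp_pos (x 1)
    rw [hexp]
    simp
    field_simp
    have h6 : Real.sqrt 3 ^ 6 = 27 := by
      calc Real.sqrt 3 ^ 6 = (Real.sqrt 3 ^ 2) ^ 3 := by ring
        _ = 27 := by rw [h3]; norm_num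
    ring_nf
    rw [h6]
    norm_num

theorem norm_sq_E2 (v : E2) : ‖v‖ ^ 2 = v 0 ^ 2 + v 1 ^ 2 := by
  rw [EuclideanSpace.norm_sq_eq, Fin.sum_univ_two]
  simp

theorem norm_le_sqrt_eval (x v : E2) :
    (1 / 2) * ‖v‖ ≤ Real.sqrt (flatField.eval x v v) := by
  apply Real.le_sqrt_of_sq_le
  rw [mul_pow, norm_sq_E2, eval_flatField]
  nlinarith [sq_nonneg (v 0 + v 1), sq_nonneg (v 0), sq_nonneg (v 1)]

theorem norm_le_pathLength {γ : ℝ → E2} (hγ : ContDiff ℝ 1 γ) :
    (1 / 2) * ‖γ 0 - γ 1‖ ≤ pathLength flatField γ := by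
  have hd : Continuous (deriv γ) := hγ.continuous_deriv le_rfl
  have h1 : ∫ t in (0 : ℝ)..1, deriv γ t = γ 1 - γ 0 :=
    intervalIntegral.integral_deriv_eq_sub
      (fun t _ => (hγ.differentiable (by simp)) t) (hd.intervalIntegrable _ _)
  have h2 : ‖∫ t in (0 : ℝ)..1, deriv γ t‖ ≤ ∫ t in (0 : ℝ)..1, ‖deriv γ t‖ :=
    intervalIntegral.norm_integral_le_integral_norm zero_le_one
  have h3 : ∫ t in (0 : ℝ)..1, (1 / 2) * ‖deriv γ t‖ ≤ pathLength flatField γ := by
    unfold pathLength
    apply intervalIntegral.integral_mono_on zero_le_one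
    · exact (continuous_const.mul hd.norm).intervalIntegrable _ _
    · apply Continuous.intervalIntegrable
      simp only [eval_flatField]
      have h0 : Continuous (fun t => deriv γ t 0) := by fun_prop
      have h1 : Continuous (fun t => deriv γ t 1) := by fun_prop
      fun_prop
    · intro t _
      exact norm_le_sqrt_eval _ _
  rw [intervalIntegral.integral_const_mul] at h3
  rw [h1, norm_sub_rev] at h2
  linarith

theorem norm_le_riemDist (x y : E2) : (1 / 2) * ‖x - y‖ ≤ riemDist flatField x y := by
  unfold riemDist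
  apply le_csInf
  · exact ⟨_, fun t => x + t • (y - x), by fun_prop, by simp, by simp, rfl⟩
  · rintro L ⟨γ, hγ, h0, h1, rfl⟩
    rw [← h0, ← h1]
    exact norm_le_pathLength hγ

theorem flat_complete : IsCompleteMetric flatField := by
  intro u hu
  apply cauchySeq_tendsto_of_complete
  rw [Metric.cauchySeq_iff]
  intro ε hε
  obtain ⟨N, hN⟩ := hu (ε / 2) (by linarith)
  refine ⟨N, fun m hm n hn => ?_⟩
  have h1 := norm_le_riemDist (u m) (u n)
  have h2 := hN m hm n hn
  rw [dist_eq_norm]
  linarith

/-- The octant. -/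
def octant : Set E3 := {y | ∀ i, 0 ≤ y i}

theorem octant_eq : octant = ⋂ i, {y : E3 | 0 ≤ y i} := by
  ext y
  simp [octant]

theorem mem_interior_octant {y : E3} : y ∈ interior octant ↔ ∀ i, 0 < y i := by
  constructor
  · intro h i
    rw [mem_interior_iff_mem_nhds, Metric.mem_nhds_iff] at h
    obtain ⟨ε, hε, hb⟩ := h
    have h1 : y - (ε / 2) • EuclideanSpace.single i (1 : ℝ) ∈ octant := by
      apply hb
      rw [mem_ball, dist_eq_norm]
      have : y - (ε / 2) • EuclideanSpace.single i (1 : ℝ) - y =
        -((ε / 2) • EuclideanSpace.single i (1 : ℝ)) := by abel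
      rw [this, norm_neg, norm_smul, PiLp.norm_single,
        Real.norm_of_nonneg (by positivity)]
      simp
      linarith
    have h2 := h1 i
    simp at h2
    linarith
  · intro h
    have ho : IsOpen {y : E3 | ∀ i, 0 < y i} := by
      have : {y : E3 | ∀ i, 0 < y i} = ⋂ i, {y : E3 | 0 < y i} := by
        ext y
        simp
      rw [this]
      exact isOpen_iInter_of_finite fun i => isOpen_lt continuous_const (by fun_prop)
    have hsub : {y : E3 | ∀ i, 0 < y i} ⊆ octant := by
      intro z hz i
      have hz' : ∀ i, 0 < z i := hz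
      exact (hz' i).le
    exact (interior_maximal hsub ho) h

theorem isClosed_octant : IsClosed octant := by
  rw [octant_eq]
  exact isClosed_iInter fun i => isClosed_le continuous_const (by fun_prop)

theorem isRegularCone_octant : IsRegularCone octant where
  isClosed := isClosed_octant
  convex := by
    intro x hx y hy a b ha hb _ i
    have h1 := hx i
    have h2 := hy i
    simp only [PiLp.add_apply, PiLp.smul_apply, smul_eq_mul]
    positivity
  smul_mem := by
    intro t ht x hx i
    exact mul_nonneg ht (hx i)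
  interior_nonempty := ⟨!₂[1, 1, 1], mem_interior_octant.2 (by
    intro i
    fin_cases i <;> simp)⟩
  pointed := by
    intro x hx hnx
    ext i
    have h1 := hx i
    have h2 := hnx i
    simp only [PiLp.neg_apply] at h2
    simp only [PiLp.zero_apply]
    linarith

theorem exists_ell_ge (x : E2) : ∃ i, ‖x‖ / 4 ≤ ell i x := by
  by_contra h
  push Not at h
  have h0 := h 0
  have h1 := h 1
  have h2 := h 2
  rw [ell_zero] at h0
  rw [ell_one] at h1
  rw [ell_two] at h2
  have h3 := norm_sq_E2 x
  have h4 := norm_nonneg x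
  have h5 : -(‖x‖ / 2) < x 0 := by linarith
  have h6 : -(‖x‖ / 2) < x 1 := by linarith
  have h7 : x 0 ^ 2 ≤ ‖x‖ ^ 2 / 4 := by nlinarith
  have h8 : x 1 ^ 2 ≤ ‖x‖ ^ 2 / 4 := by nlinarith
  have h9 : ‖x‖ = 0 := by nlinarith
  linarith

theorem exists_ell_le (x : E2) : ∃ i, ell i x ≤ -(‖x‖ / 4) := by
  obtain ⟨i, hi⟩ := exists_ell_ge (-x)
  refine ⟨i, ?_⟩
  rw [map_neg, norm_neg] at hi
  linarith

theorem tit_apply (x : E2) (i : Fin 3) : tit x i = (Real.sqrt 3)⁻¹ * Real.exp (ell i x) := rfl

theorem tit_pos (x : E2) (i : Fin 3) : 0 < tit x i := by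
  rw [tit_apply]
  exact mul_pos sqrt3_inv_pos (Real.exp_pos _)

theorem ell_sum (x : E2) : ell 0 x + ell 1 x + ell 2 x = 0 := by
  rw [ell_zero, ell_one, ell_two]
  ring

theorem tit_asymptotic : IsAsymptoticTo tit octant := by
  have hcont : Continuous tit := (contDiff_expMap _).continuous
  have hinj : Function.Injective tit := by
    intro x y hxy
    apply ell_ext
    intro i
    have := congrArg (fun z : E3 => z i) hxy
    simp only [tit_apply] at this
    exact Real.exp_injective (mul_left_cancel₀ sqrt3_inv_pos.ne' this)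
  have hnorm : Tendsto (fun x => ‖tit x‖) (cocompact E2) atTop := by
    have h1 : Tendsto (fun x : E2 => (Real.sqrt 3)⁻¹ * Real.exp (‖x‖ / 4)) (cocompact E2) atTop :=
      (Real.tendsto_exp_atTop.comp
        (tendsto_norm_cocompact_atTop.atTop_div_const (by norm_num))).const_mul_atTop
        sqrt3_inv_pos
    refine tendsto_atTop_mono ?_ h1
    intro x
    obtain ⟨i, hi⟩ := exists_ell_ge x
    calc (Real.sqrt 3)⁻¹ * Real.exp (‖x‖ / 4) ≤ (Real.sqrt 3)⁻¹ * Real.exp (ell i x) :=
          mul_le_mul_of_nonneg_left (Real.exp_le_exp.2 hi) sqrt3_inv_pos.le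
      _ = tit x i := rfl
      _ ≤ ‖tit x i‖ := le_abs_self _
      _ ≤ ‖tit x‖ := PiLp.norm_apply_le _ _
  refine ⟨?_, ?_, ?_, ?_⟩
  · apply IsClosedEmbedding.of_continuous_injective_isClosedMap hcont hinj
    refine (isProperMap_iff_tendsto_cocompact.2 ⟨hcont, ?_⟩).isClosedMap
    rw [← Metric.cobounded_eq_cocompact (α := E3), ← comap_norm_atTop, tendsto_comap_iff]
    exact hnorm
  · intro x
    rw [mem_interior_octant]
    exact tit_pos x
  · intro p hp
    rw [mem_interior_octant] at hp
    have hs3 := sqrt3_inv_pos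
    -- the logarithm of the factor
    set A : Fin 3 → ℝ := fun i => Real.log (p i) - Real.log (Real.sqrt 3)⁻¹ with hA
    set T : ℝ := -(A 0 + A 1 + A 2) / 3 with hT
    have hkey : ∀ (x : E2) (t : ℝ), 0 < t → (tit x = t • p ↔ ∀ i, ell i x = Real.log t + A i) := by
      intro x t ht
      constructor
      · intro h i
        have h1 := congrArg (fun z : E3 => Real.log (z i)) h
        simp only [tit_apply, PiLp.smul_apply, smul_eq_mul] at h1
        rw [Real.log_mul hs3.ne' (Real.exp_pos _).ne', Real.log_exp,
          Real.log_mul ht.ne' (hp i).ne'] at h1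
        simp only [hA]
        linarith
      · intro h
        ext i
        rw [tit_apply, PiLp.smul_apply, smul_eq_mul, h i, Real.exp_add, Real.exp_log ht]
        simp only [hA]
        rw [Real.exp_sub, Real.exp_log (hp i), Real.exp_log hs3]
        field_simp
    refine ⟨!₂[T + A 0, T + A 1], ⟨Real.exp T, Real.exp_pos _, ?_⟩, ?_⟩
    · rw [hkey _ _ (Real.exp_pos _), Real.log_exp]
      intro i
      fin_cases i
      · exact ell_zero _
      · exact ell_one _
      · change ell 2 _ = _
        rw [ell_two]
        simp only [hT]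
        simp
        ring
    · rintro y ⟨t, ht, hy⟩
      rw [hkey _ _ ht] at hy
      have h0 := hy 0
      have h1 := hy 1
      have h2 := hy 2
      have h3 := ell_sum y
      have h4 : Real.log t = T := by
        rw [hT]
        linarith
      ext i
      fin_cases i
      · change y 0 = _
        rw [← ell_zero, h0, h4]
        simp
      · change y 1 = _
        rw [← ell_one, h1, h4]
        simp
  · have hb : ∀ x, infDist (tit x) (frontier octant) ≤
        (Real.sqrt 3)⁻¹ * Real.exp (-(‖x‖ / 4)) := by
      intro x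
      obtain ⟨j, hj⟩ := exists_ell_le x
      have hfr : tit x - (tit x j) • EuclideanSpace.single j (1 : ℝ) ∈ frontier octant := by
        rw [isClosed_octant.frontier_eq]
        constructor
        · intro i
          by_cases hij : i = j
          · subst hij
            simp
          · have := (tit_pos x i).le
            simp [hij]
            exact this
        · intro h
          rw [mem_interior_octant] at h
          have := h j
          simp at this
      calc infDist (tit x) (frontier octant) ≤
          dist (tit x) (tit x - (tit x j) • EuclideanSpace.single j (1 : ℝ)) :=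
            infDist_le_dist_of_mem hfr
        _ = tit x j := by
            rw [dist_eq_norm, sub_sub_cancel, norm_smul, PiLp.norm_single,
              Real.norm_of_nonneg (tit_pos x j).le]
            simp
        _ = (Real.sqrt 3)⁻¹ * Real.exp (ell j x) := rfl
        _ ≤ _ := mul_le_mul_of_nonneg_left (Real.exp_le_exp.2 hj) sqrt3_inv_pos.le
    have hlim : Tendsto (fun x : E2 => (Real.sqrt 3)⁻¹ * Real.exp (-(‖x‖ / 4)))
        (cocompact E2) (𝓝 0) := by
      have h1 : Tendsto (fun x : E2 => ‖x‖ / 4) (cocompact E2) atTop :=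
        tendsto_norm_cocompact_atTop.atTop_div_const (by norm_num)
      have h2 := (Real.tendsto_exp_neg_atTop_nhds_zero.comp h1).const_mul (Real.sqrt 3)⁻¹
      simpa using h2
    exact squeeze_zero (fun x => infDist_nonneg) hb hlim

/-- A linear isometry of the constant metric with the flat metric. -/
noncomputable def phiC (x : E2) : ℂ :=
  ⟨Real.sqrt (1 / 6) * (2 * x 0 + x 1), Real.sqrt (1 / 2) * x 1⟩

theorem flat_conformal : ConformalToC flatField := by
  have hs6 : Real.sqrt (1 / 6) * Real.sqrt (1 / 6) = 1 / 6 := Real.mul_self_sqrt (by norm_num)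
  have hs2 : Real.sqrt (1 / 2) * Real.sqrt (1 / 2) = 1 / 2 := Real.mul_self_sqrt (by norm_num)
  have p6 : 0 < Real.sqrt (1 / 6) := Real.sqrt_pos.2 (by norm_num)
  have p2 : 0 < Real.sqrt (1 / 2) := Real.sqrt_pos.2 (by norm_num)
  let L : E2 →ₗ[ℝ] ℂ :=
    { toFun := phiC
      map_add' := by
        intro x y
        apply Complex.ext <;> simp [phiC] <;> ring
      map_smul' := by
        intro t x
        apply Complex.ext <;> simp [phiC] <;> ring }
  have hL : phiC = ⇑L.toContinuousLinearMap := rfl
  let M : ℂ →ₗ[ℝ] E2 :=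
    { toFun := fun z => !₂[(z.re / Real.sqrt (1 / 6) - z.im / Real.sqrt (1 / 2)) / 2,
        z.im / Real.sqrt (1 / 2)]
      map_add' := by
        intro x y
        ext i
        fin_cases i <;> simp <;> ring
      map_smul' := by
        intro t x
        ext i
        fin_cases i <;> simp <;> ring }
  refine ⟨phiC, M, fun _ => 1, ?_, ?_, ?_, ?_, ?_⟩
  · rw [hL]
    exact L.toContinuousLinearMap.contDiff
  · exact M.toContinuousLinearMap.contDiff
  · intro x
    ext i
    fin_cases i
    · simp [M, phiC]
      field_simp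
      ring
    · simp [M, phiC]
      field_simp
  · intro z
    apply Complex.ext
    · simp [M, phiC]
      field_simp
      ring
    · simp [M, phiC]
      field_simp
  · intro x
    refine ⟨one_pos, fun v w => ?_⟩
    have h1 : ∀ v, dC phiC x v = phiC v := by
      intro v
      unfold dC
      rw [hL, ContinuousLinearMap.fderiv]
    rw [h1, h1, eval_flatField, one_mul, Complex.inner]
    simp [phiC]
    simp at hs6 hs2
    linear_combination (-((2 * w 0 + w 1) * (2 * v 0 + v 1))) * hs6 - (v 1 * w 1) * hs2

/-- The definitions are satisfied by the Titeica surface and the octant. -/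
theorem titeica : IsRegularCone octant ∧ IsHyperbolicAffineSphere (-1) tit flatField ∧
    IsCompleteMetric flatField ∧ IsAsymptoticTo tit octant ∧ ConformalToC flatField :=
  ⟨isRegularCone_octant, tit_isSphere, flat_complete, tit_asymptotic, flat_conformal⟩

end Pool.Agent.Hhelper67.Aff
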